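import Pool.Agent.Lib.MP_c80ac4_an.CX.Ari

/-!
# Row AR2: sums of weights near pairs

`sum_wt`: the weights are at most `3 * vv (f n)` (`n ≤ 2 vv`, `|σ n| ≤ dd ≤ vv`), the `f n < k` are
distinct (`Finset.sum_image` / `Finset.sum_le_sum_of_subset` into `Finset.range k`), and
`∑ l ∈ range k, 3 * vv l ≤ dd k / 1000` by induction on `k`: `3 * vv k + dd k / 1000 ≤
dd (k+1) / 1000` since `dd k ≤ vv k / 16` and `4096 * vv k ≤ dd (k+1)` (`vv_le`).
`card_le`: the image of `A` under `f` is in `range k`. `dd_large`: `dd k = 16^((k+2)^2) ≥ 4^k * 4^k`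
and `4^(k0) ≥ D`; `N = 2 * (∑ k < k0, vv k) + 1`: if `Near k n`, `n ≥ N` then `k ≥ k0`.
-/

namespace Forcing.CX

private theorem ar2_sum (k : ℕ) : ∑ l ∈ Finset.range k, 3 * (vv l : ℝ) ≤ dd k / 1000 := by
  induction k with
  | zero =>
    rw [Finset.range_zero, Finset.sum_empty]
    positivity
  | succ k ih =>
    rw [Finset.sum_range_succ]
    have h1 : (16 * dd k : ℝ) ≤ vv k := by exact_mod_cast dd_le k
    have h2 : (4096 * vv k : ℝ) ≤ dd (k + 1) := by exact_mod_cast vv_le (Nat.lt_succ_self k)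
    have h3 : (0 : ℝ) ≤ vv k := Nat.cast_nonneg _
    linarith

theorem sum_wt {A : Finset ℕ} {f : ℕ → ℕ} (hf : Set.InjOn f (A : Set ℕ)) {σ : ℕ → ℤ}
    (hn : ∀ n ∈ A, Near (f n) n) (hσ : ∀ n ∈ A, |(σ n : ℝ)| ≤ dd (f n)) (k : ℕ)
    (hk : ∀ n ∈ A, f n < k) : ∑ n ∈ A, wt σ n ≤ dd k / 1000 := by
  have h1 : ∑ n ∈ A, wt σ n ≤ ∑ n ∈ A, 3 * (vv (f n) : ℝ) := by
    apply Finset.sum_le_sum
    intro n hnA
    have a1 : (n : ℝ) ≤ 2 * vv (f n) := by exact_mod_cast (hn n hnA).2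
    have a2 := hσ n hnA
    have a3 : (16 * dd (f n) : ℝ) ≤ vv (f n) := by exact_mod_cast dd_le (f n)
    have a4 : (0 : ℝ) ≤ dd (f n) := Nat.cast_nonneg _
    unfold wt
    linarith
  have h2 : ∑ n ∈ A, 3 * (vv (f n) : ℝ) = ∑ l ∈ A.image f, 3 * (vv l : ℝ) :=
    (Finset.sum_image (f := fun l => 3 * (vv l : ℝ)) (fun a ha b hb h => hf ha hb h)).symm
  have h3 : ∑ l ∈ A.image f, 3 * (vv l : ℝ) ≤ ∑ l ∈ Finset.range k, 3 * (vv l : ℝ) := by
    apply Finset.sum_le_sum_of_subset_of_nonneg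
    · intro l hl
      rw [Finset.mem_image] at hl
      obtain ⟨n, hn', rfl⟩ := hl
      exact Finset.mem_range.2 (hk n hn')
    · intro i _ _
      positivity
  linarith [ar2_sum k]

theorem card_le {A : Finset ℕ} {f : ℕ → ℕ} (hf : Set.InjOn f (A : Set ℕ)) (k : ℕ)
    (hk : ∀ n ∈ A, f n < k) : A.card ≤ k := by
  have h := Finset.card_le_card_of_injOn (s := A) (t := Finset.range k) f
    (fun n hn => Finset.mem_coe.2 (Finset.mem_range.2 (hk n hn))) hf
  rwa [Finset.card_range] at h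

/-- frequencies near a pair of large frequency have a large index -/
theorem dd_large (D : ℝ) : ∃ N : ℕ, ∀ k n : ℕ, N ≤ n → Near k n → D * 4 ^ k ≤ dd k := by
  obtain ⟨k0, hk0⟩ := pow_unbounded_of_one_lt D (by norm_num : (1 : ℝ) < 4)
  refine ⟨2 * (∑ k ∈ Finset.range k0, vv k) + 1, fun k n hn hnear => ?_⟩
  have hkk : k0 ≤ k := by
    by_contra hlt
    have h1 : vv k ≤ ∑ k ∈ Finset.range k0, vv k :=
      Finset.single_le_sum (f := vv) (fun _ _ => Nat.zero_le _) (Finset.mem_range.2 (not_le.1 hlt))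
    have h2 := hnear.2
    omega
  have h1 : D ≤ 4 ^ k := hk0.le.trans (pow_le_pow_right₀ (by norm_num) hkk)
  have h2 : (4 : ℝ) ^ k * 4 ^ k ≤ dd k := by
    have h3 : (16 : ℝ) ^ k ≤ (dd k : ℝ) := by
      unfold dd
      push_cast
      apply pow_le_pow_right₀ (by norm_num)
      nlinarith
    have h4 : (4 : ℝ) ^ k * 4 ^ k = 16 ^ k := by
      rw [← mul_pow]
      norm_num
    rw [h4]
    exact h3
  exact (mul_le_mul_of_nonneg_right h1 (by positivity)).trans h2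

end Forcing.CX
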