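import Pool.Agent.Lib.MP_c80ac4_an.CX.Defs

/-!
# Row ARI: arithmetic of the frequencies

`dd k = 16 ^ ((k+2)^2)`, `vv k = 16 ^ (row (gad k) + 1) * dd k`, `row (gad k) ≤ gad k ≤ k`
(`Nat.unpair_left_le`). For `l < k`: `(l+2)^2 + row + 1 + 3 ≤ (l+3)^2 ≤ (k+2)^2` because
`row + 4 ≤ 2 (l+2) + 1`. `near_unique`, `near_lt`: near `k` means `vv k / 2 ≤ n ≤ 2 vv k`, and
`4096 vv l ≤ dd k ≤ vv k / 16` for `l < k`.
-/

namespace Forcing.CX

theorem dd_pos (k : ℕ) : 0 < dd k := by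
  unfold dd
  positivity

theorem vv_eq (k : ℕ) : vv k = 16 ^ (row (gad k) + 1) * dd k := by
  unfold vv dd
  rw [← pow_add]
  congr 1
  ring

theorem dd_le (k : ℕ) : 16 * dd k ≤ vv k := by
  rw [vv_eq]
  refine Nat.mul_le_mul_right _ ?_
  calc 16 = 16 ^ 1 := by norm_num
    _ ≤ 16 ^ (row (gad k) + 1) := Nat.pow_le_pow_right (by norm_num) (by omega)

private theorem row_le (k : ℕ) : row (gad k) ≤ k := by
  unfold row gad
  exact (Nat.unpair_left_le _).trans (Nat.unpair_left_le _)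

theorem vv_le {l k : ℕ} (h : l < k) : 4096 * vv l ≤ dd k := by
  unfold vv dd
  have h1 := row_le l
  have h2 : (l + 3) ^ 2 ≤ (k + 2) ^ 2 := Nat.pow_le_pow_left (by omega) 2
  have h3 : (l + 3) ^ 2 = (l + 2) ^ 2 + 2 * l + 5 := by ring
  calc 4096 * 16 ^ ((l + 2) ^ 2 + row (gad l) + 1) = 16 ^ ((l + 2) ^ 2 + row (gad l) + 1 + 3) := by
        rw [pow_add 16 ((l + 2) ^ 2 + row (gad l) + 1) 3]
        norm_num
        ring
    _ ≤ 16 ^ ((k + 2) ^ 2) := Nat.pow_le_pow_right (by norm_num) (by omega)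

private theorem vv_pos (k : ℕ) : 0 < vv k := by
  unfold vv
  positivity

theorem near_unique {k l n : ℕ} (h1 : Near k n) (h2 : Near l n) : k = l := by
  obtain ⟨a1, a2⟩ := h1
  obtain ⟨b1, b2⟩ := h2
  rcases lt_trichotomy k l with h | h | h
  · have e1 := vv_le h
    have e2 := dd_le l
    have e3 := vv_pos k
    omega
  · exact h
  · have e1 := vv_le h
    have e2 := dd_le k
    have e3 := vv_pos l
    omega

theorem near_lt {k l m n : ℕ} (h1 : Near k m) (h2 : Near l n) (h : m < n) (hne : k ≠ l) :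
    k < l := by
  obtain ⟨a1, a2⟩ := h1
  obtain ⟨b1, b2⟩ := h2
  by_contra hc
  have hlk : l < k := by omega
  have e1 := vv_le hlk
  have e2 := dd_le k
  have e3 := vv_pos l
  omega

end Forcing.CX
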