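import Mathlib

/-!
# Row BAI: a Baire category argument (only Mathlib)

PROOF. Put `P3 = {x | ∀ m, {j | x j = true ∧ (Nat.unpair j).1 = m}.Finite}`. Pulling the `G i j`
back by `Φ` we have open sets `U i j` of `ℕ → Bool` with `P3 = ⋃ i, B i`, `B i = ⋂ j, U i j`.
For `f : ℕ → Bool`, `i N : ℕ` let `Z f i N = {x | ∀ j, (Nat.unpair j).1 < i ∨ j < N → x j = f j}`
(closed). CLAIM: if `f` has finite support (`{j | f j = true}` finite), then there are `f'` of
finite support with `f' ∈ Z f i N` and `N' ≥ N + 1` such that `Z f' (i+1) N' ∩ B i = ∅`.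
Proof of the claim: otherwise `Z f' (i+1) N'` meets `B i` for all such `f'`, `N'`. Then `B i` is
dense in `Z = Z f i N`: given `y ∈ Z` and `N' ≥ N + 1` put `f' j = y j` for `j < N'`, `f' j = f j`
for `j ≥ N'`; a point of `Z f' (i+1) N' ∩ B i` lies in `Z` and agrees with `y` below `N'`.
So the `U i j ∩ Z` are open and dense in `Z`, and so are, for all `M`, the sets
`{x ∈ Z | ∃ j ≥ M, (Nat.unpair j).1 = i ∧ x j = true}` (change a far coordinate `j = Nat.pair i n`
of row `i`). `Z` is compact Hausdorff, so a Baire space: the intersection of all these sets is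
nonempty (`dense_iInter_of_isOpen` ...); its points are in `B i ⊆ P3`, but row `i` is infinite.
Contradiction. Iterating the claim from `f = false`, `N = 0` gives `f_i`, `N_i` with
`f_(i+1) ∈ Z f_i i N_i`, `Z f_(i+1) (i+1) N_(i+1) ∩ B i = ∅`, `N_i ≥ i`; the sets `Z f_i i N_i`
decrease and `x j = f_(j+1) j` is in all of them; row `m` of `x` is that of `f_(m+1)`, so it is
finite and `x ∈ P3`, but `x` is in no `B i`. Contradiction.
-/

namespace Forcing.CX

private theorem dc {α : Type*} (R : ℕ → α → α → Prop) (h : ∀ k a, ∃ b, R k a b) (a0 : α) :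
    ∃ s : ℕ → α, s 0 = a0 ∧ ∀ k, R k (s k) (s (k + 1)) := by
  choose g hg using h
  exact ⟨fun n => Nat.rec a0 (fun k a => g k a) n, rfl, fun k => hg k _⟩

private theorem lim {f : ℕ → ℕ → Bool} {S : ℕ → Set ℕ} (hS : ∀ l, S l ⊆ S (l + 1))
    (hj : ∀ j, j ∈ S (j + 1)) (hf : ∀ l, ∀ j ∈ S l, f (l + 1) j = f l j) :
    ∀ l, ∀ j ∈ S l, f (j + 1) j = f l j := by
  have hm : Monotone S := monotone_nat_of_le_succ hS
  have key : ∀ l j, j ∈ S l → ∀ n, l ≤ n → f n j = f l j := by
    intro l j hjl n hn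
    induction n, hn using Nat.le_induction with
    | base => rfl
    | succ n hn ih => rw [hf n j (hm hn hjl), ih]
  intro l j hjl
  rcases le_total l (j + 1) with h | h
  · exact key l j hjl _ h
  · exact (key (j + 1) j (hj j) l h).symm

private theorem cyl {U : Set (ℕ → Bool)} (hU : IsOpen U) {x : ℕ → Bool} (hx : x ∈ U) :
    ∃ M : ℕ, ∀ z : ℕ → Bool, (∀ j < M, z j = x j) → z ∈ U := by
  obtain ⟨I, u, h1, h2⟩ := isOpen_pi_iff.mp hU x hx
  refine ⟨I.sup id + 1, fun z hz => h2 fun a ha => ?_⟩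
  rw [hz a (Nat.lt_succ_of_le (Finset.le_sup (f := id) (by exact_mod_cast ha)))]
  exact (h1 a (by exact_mod_cast ha)).2

private theorem claim {U : ℕ → Set (ℕ → Bool)} (hU : ∀ k, IsOpen (U k)) (i N : ℕ) {f : ℕ → Bool}
    (hf : {j | f j = true}.Finite)
    (hB : ∀ x : ℕ → Bool, (∀ k, x ∈ U k) → {j | x j = true ∧ (Nat.unpair j).1 = i}.Finite) :
    ∃ (f' : ℕ → Bool) (N' : ℕ), {j | f' j = true}.Finite ∧
      (∀ j, (Nat.unpair j).1 < i ∨ j < N → f' j = f j) ∧ N + 1 ≤ N' ∧
      ∀ x : ℕ → Bool, (∀ j, (Nat.unpair j).1 < i + 1 ∨ j < N' → x j = f' j) → ¬ ∀ k, x ∈ U k := by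
  by_contra H
  push Not at H
  let α := {p : (ℕ → Bool) × ℕ // {j | p.1 j = true}.Finite ∧
    (∀ j, (Nat.unpair j).1 < i ∨ j < N → p.1 j = f j) ∧ N ≤ p.2}
  let R : ℕ → α → α → Prop := fun k a b => a.1.2 < b.1.2 ∧ (∀ j < a.1.2, b.1.1 j = a.1.1 j) ∧
    (∃ j, a.1.2 ≤ j ∧ j < b.1.2 ∧ (Nat.unpair j).1 = i ∧ b.1.1 j = true) ∧
    ∀ z : ℕ → Bool, (∀ j < b.1.2, z j = b.1.1 j) → z ∈ U k
  have hstep : ∀ k a, ∃ b, R k a b := by
    rintro k ⟨⟨y, M⟩, hy1, hy2, hy3⟩
    simp only at hy1 hy2 hy3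
    set j0 := Nat.pair i M with hj0
    have hj0M : M ≤ j0 := Nat.right_le_pair i M
    have hrow : (Nat.unpair j0).1 = i := by rw [hj0, Nat.unpair_pair]
    have hy1' : {j | Function.update y j0 true j = true}.Finite := by
      refine (hy1.insert j0).subset fun j hj => ?_
      by_cases h : j = j0
      · exact Set.mem_insert_iff.mpr (Or.inl h)
      · rw [Set.mem_setOf_eq, Function.update_of_ne h] at hj
        exact Set.mem_insert_iff.mpr (Or.inr hj)
    have hy2' : ∀ j, (Nat.unpair j).1 < i ∨ j < N → Function.update y j0 true j = f j := by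
      intro j hj
      have h : j ≠ j0 := by
        rintro rfl
        rcases hj with h | h
        · omega
        · omega
      rw [Function.update_of_ne h]
      exact hy2 j hj
    obtain ⟨x, hx1, hx2⟩ := H _ (j0 + 1) hy1' hy2' (by omega)
    obtain ⟨M2, hM2⟩ := cyl (hU k) (hx2 k)
    have hb : {j | (fun j => if j < max (j0 + 1) M2 then x j else Function.update y j0 true j) j
        = true}.Finite := by
      refine ((Set.finite_Iio (max (j0 + 1) M2)).union hy1').subset fun j hj => ?_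
      simp only [Set.mem_setOf_eq] at hj
      by_cases h : j < max (j0 + 1) M2
      · exact Or.inl h
      · rw [if_neg h] at hj
        exact Or.inr hj
    refine ⟨⟨⟨fun j => if j < max (j0 + 1) M2 then x j else Function.update y j0 true j,
      max (j0 + 1) M2⟩, hb, ?_, ?_⟩, ?_, ?_, ?_, ?_⟩
    · intro j hj
      simp only
      by_cases h : j < max (j0 + 1) M2
      · rw [if_pos h, hx1 j, hy2' j hj]
        rcases hj with h | h
        · left
          omega
        · right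
          omega
      · rw [if_neg h, hy2' j hj]
    · simp only
      omega
    · simp only
      omega
    · intro j hj
      simp only at hj ⊢
      rw [if_pos (by omega), hx1 j (Or.inr (by omega)), Function.update_of_ne (by omega)]
    · refine ⟨j0, hj0M, ?_, hrow, ?_⟩
      · simp only
        omega
      · simp only
        rw [if_pos (by omega), hx1 j0 (Or.inr (by omega)), Function.update_self]
    · intro z hz
      simp only at hz
      refine hM2 z fun j hj => ?_
      rw [hz j (by omega), if_pos (by omega)]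
  obtain ⟨s, hs0, hs⟩ := dc R hstep ⟨⟨f, N⟩, hf, fun _ _ => rfl, le_rfl⟩
  have hM : ∀ l, l ≤ (s l).1.2 := by
    intro l
    induction l with
    | zero => exact Nat.zero_le _
    | succ l ih =>
      have := (hs l).1
      omega
  have hlim := lim (f := fun l => (s l).1.1) (S := fun l => {j | j < (s l).1.2})
    (fun l j hj => by
      have := (hs l).1
      simp only [Set.mem_setOf_eq] at hj ⊢
      omega)
    (fun j => by
      have := hM (j + 1)
      simp only [Set.mem_setOf_eq]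
      omega)
    (fun l j hj => (hs l).2.1 j hj)
  have hfin := hB (fun j => (s (j + 1)).1.1 j) fun k => (hs k).2.2.2 _ fun j hj => hlim (k + 1) j hj
  obtain ⟨b, hb⟩ := hfin.bddAbove
  obtain ⟨j, hj1, hj2, hj3, hj4⟩ := (hs (b + 1)).2.2.1
  have h1 : (s (j + 1)).1.1 j = (s (b + 1 + 1)).1.1 j := hlim (b + 1 + 1) j hj2
  have h2 : j ≤ b := hb ⟨by rw [h1, hj4], hj3⟩
  have h3 := hM (b + 1)
  omega

theorem not_Gds_of_map {Y : Type*} [TopologicalSpace Y] (B : Set Y) (Φ : (ℕ → Bool) → Y)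
    (hΦ : Continuous Φ)
    (h : ∀ x, Φ x ∈ B ↔ ∀ m, {j | x j = true ∧ (Nat.unpair j).1 = m}.Finite) :
    ¬ ∃ G : ℕ → ℕ → Set Y, (∀ i j, IsOpen (G i j)) ∧ B = ⋃ i, ⋂ j, G i j := by
  rintro ⟨G, hG, hBG⟩
  have hP : ∀ x, (∃ i, ∀ k, Φ x ∈ G i k) ↔
      ∀ m, {j | x j = true ∧ (Nat.unpair j).1 = m}.Finite := by
    intro x
    rw [← h x, hBG]
    simp
  have hU : ∀ i k, IsOpen (Φ ⁻¹' G i k) := fun i k => (hG i k).preimage hΦ
  let β := {p : (ℕ → Bool) × ℕ // {j | p.1 j = true}.Finite}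
  let R : ℕ → β → β → Prop := fun i a b =>
    (∀ j, (Nat.unpair j).1 < i ∨ j < a.1.2 → b.1.1 j = a.1.1 j) ∧ a.1.2 + 1 ≤ b.1.2 ∧
    ∀ x : ℕ → Bool, (∀ j, (Nat.unpair j).1 < i + 1 ∨ j < b.1.2 → x j = b.1.1 j) →
      ¬ ∀ k, x ∈ Φ ⁻¹' G i k
  have hstep : ∀ i a, ∃ b, R i a b := by
    rintro i ⟨⟨f, N⟩, hf⟩
    obtain ⟨f', N', h1, h2, h3, h4⟩ := claim (hU i) i N hf
      (fun x hx => (hP x).mp ⟨i, hx⟩ i)
    exact ⟨⟨⟨f', N'⟩, h1⟩, h2, h3, h4⟩
  obtain ⟨s, hs0, hs⟩ := dc R hstep ⟨⟨fun _ => false, 0⟩, by simp⟩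
  have hM : ∀ l, l ≤ (s l).1.2 := by
    intro l
    induction l with
    | zero => exact Nat.zero_le _
    | succ l ih =>
      have := (hs l).2.1
      omega
  have hlim := lim (f := fun l => (s l).1.1)
    (S := fun l => {j | (Nat.unpair j).1 < l ∨ j < (s l).1.2})
    (fun l j hj => by
      have := (hs l).2.1
      simp only [Set.mem_setOf_eq] at hj ⊢
      omega)
    (fun j => by
      have := hM (j + 1)
      simp only [Set.mem_setOf_eq]
      omega)
    (fun l j hj => (hs l).1 j hj)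
  have hx : ∀ m, {j | (fun j => (s (j + 1)).1.1 j) j = true ∧ (Nat.unpair j).1 = m}.Finite := by
    intro m
    refine (s (m + 1)).2.subset fun j hj => ?_
    obtain ⟨h1, h2⟩ := hj
    have h3 : (s (j + 1)).1.1 j = (s (m + 1)).1.1 j := hlim (m + 1) j (Or.inl (by omega))
    show (s (m + 1)).1.1 j = true
    rw [← h3]
    exact h1
  obtain ⟨i, hi⟩ := (hP _).mpr hx
  exact (hs i).2.2 _ (fun j hj => hlim (i + 1) j hj) hi

end Forcing.CX
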