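import Pool.Agent.Lib.MP_c80ac4_an.CX.GB

/-!
# Row CF: the bound on one class (adaptation of `Forcing.UN.class_fin`, UN/Cls.lean)

`ε n = conj (b n) / ‖b n‖`, `∫ (∑ b n z^n) gp = ∑ b n * gI n`, `gI_main` for every `m ∈ s` (the
condition for `m ∈ A` is `hmm`), so the integral differs from `(1/4) ∑ n ∈ A, ‖b n‖` by at most
`5 κ ∑ n ∈ s, ‖b n‖`, and it is at most `B` in modulus.
-/

namespace Forcing.CX

open Complex Metric Set MeasureTheory Filter Topology Forcing.RZ Forcing.UN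

theorem class_fin {μ : Measure ℂ} [IsProbabilityMeasure μ] (hμ : ∀ᵐ z ∂μ, ‖z‖ = 1) {C κ : ℝ}
    (hC : 0 ≤ C) (hκ : 0 ≤ κ) (hd : Dec μ C 1) {σ : ℕ → ℤ} {η : ℝ} {Δ : ℕ → ℝ} (h0 : 0 ≤ η)
    (h1 : η ≤ 1) {s A : Finset ℕ} (b : ℕ → ℂ) (hAs : A ⊆ s) (hA : Sep σ Δ C κ A)
    (hm : ∀ m ∈ s, ‖∫ z, z ^ m ∂μ‖ ≤ κ)
    (hsep : ∀ m ∈ s, ∀ n ∈ A, n ≠ m →
      2 * Δ n ≤ |(m : ℝ) - n| ∧ (η = 0 ∨ 2 * Δ n ≤ |(m : ℝ) - n - σ n|))
    (hmm : ∀ n ∈ A, η = 0 ∨ 2 * Δ n ≤ |(σ n : ℝ)|) {B : ℝ}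
    (hB : ∀ ε : ℕ → ℂ, (∀ n, ‖ε n‖ ≤ 1) →
      ∫ z, ‖∑ n ∈ s, b n * z ^ n‖ * ‖gp ε σ η A z‖ ∂μ ≤ B) :
    1 / 4 * ∑ n ∈ A, ‖b n‖ ≤ B + 5 * κ * ∑ n ∈ s, ‖b n‖ := by
  set ε : ℕ → ℂ := fun n => (starRingEnd ℂ) (b n) / ‖b n‖ with hεd
  have hε : ∀ n, ‖ε n‖ ≤ 1 := by
    intro n
    rw [hεd]
    simp only [norm_div, RCLike.norm_conj, Complex.norm_real, norm_norm]
    exact div_self_le_one _
  have hbε : ∀ n, b n * (ε n / 4) = ((‖b n‖ / 4 : ℝ) : ℂ) := by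
    intro n
    by_cases hn : b n = 0
    · simp [hn]
    have h0 : (‖b n‖ : ℂ) ≠ 0 := by exact_mod_cast (norm_ne_zero_iff.mpr hn)
    have h1 : b n * (starRingEnd ℂ) (b n) = (‖b n‖ : ℂ) ^ 2 := by
      rw [Complex.mul_conj, Complex.normSq_eq_norm_sq]; push_cast; rfl
    rw [hεd]
    push_cast
    have h2 : b n * ((starRingEnd ℂ) (b n) / (‖b n‖ : ℂ) / 4) =
      (b n * (starRingEnd ℂ) (b n)) / (‖b n‖ : ℂ) / 4 := by ring
    show b n * ((starRingEnd ℂ) (b n) / (‖b n‖ : ℂ) / 4) = _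
    rw [h2, h1]
    field_simp
  have i1 : ∫ z, (∑ n ∈ s, b n * z ^ n) * gp ε σ η A z ∂μ = ∑ n ∈ s, b n * gI μ ε σ η A n := by
    unfold gI
    simp_rw [Finset.sum_mul]
    rw [integral_finsetSum]
    · refine Finset.sum_congr rfl fun n _ => ?_
      rw [← integral_const_mul]
      congr 1
      ext z
      rw [zpow_natCast]
      ring
    · intro n _
      have := (int_gp hμ hε h0 h1 A n (σ := σ)).const_mul (b n)
      refine this.congr (Eventually.of_forall fun z => ?_)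
      simp only [zpow_natCast]
      ring
  have i2 : ∑ n ∈ s, b n * (if n ∈ A then ε n / 4 else 0) =
      ((1 / 4 * ∑ n ∈ A, ‖b n‖ : ℝ) : ℂ) := by
    rw [← Finset.sum_subset hAs (fun n _ hn => by rw [if_neg hn, mul_zero]), Finset.mul_sum,
      Complex.ofReal_sum]
    refine Finset.sum_congr rfl fun n hn => ?_
    rw [if_pos hn, hbε]
    congr 1
    ring
  have i3 : ‖∑ n ∈ s, b n * gI μ ε σ η A n - ∑ n ∈ s, b n * (if n ∈ A then ε n / 4 else 0)‖ ≤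
      5 * κ * ∑ n ∈ s, ‖b n‖ := by
    rw [← Finset.sum_sub_distrib, Finset.mul_sum]
    refine (norm_sum_le _ _).trans (Finset.sum_le_sum fun n hn => ?_)
    rw [← mul_sub, norm_mul, mul_comm]
    refine mul_le_mul_of_nonneg_right ?_ (norm_nonneg _)
    exact gI_main hμ hC hκ hd hε h0 h1 hA (hm n hn) (fun k hk hne => hsep n hn k hk hne) (hmm n)
  have i4 : ‖∫ z, (∑ n ∈ s, b n * z ^ n) * gp ε σ η A z ∂μ‖ ≤ B := by
    refine (norm_integral_le_integral_norm _).trans (le_trans (le_of_eq ?_) (hB ε hε))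
    congr 1
    ext z
    rw [norm_mul]
  have i5 : (0 : ℝ) ≤ 1 / 4 * ∑ n ∈ A, ‖b n‖ :=
    mul_nonneg (by norm_num) (Finset.sum_nonneg fun _ _ => norm_nonneg _)
  have i6 : 1 / 4 * ∑ n ∈ A, ‖b n‖ = ‖∑ n ∈ s, b n * (if n ∈ A then ε n / 4 else 0)‖ := by
    rw [i2, Complex.norm_real, Real.norm_of_nonneg i5]
  rw [i6]
  rw [i1] at i4
  set X := ∑ n ∈ s, b n * gI μ ε σ η A n
  set Y := ∑ n ∈ s, b n * (if n ∈ A then ε n / 4 else 0)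
  calc ‖Y‖ = ‖X - (X - Y)‖ := by congr 1; ring
    _ ≤ ‖X‖ + ‖X - Y‖ := norm_sub_le _ _
    _ ≤ _ := add_le_add i4 i3

end Forcing.CX
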