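import Pool.Agent.Lib.MP_c80ac4_an.CX.Cut

/-!
# Row CUT2: `exists_T` (compactness, as `Forcing.UN.exists_T` in UN/Cutoff.lean) and `pointwise`
(as `Forcing.UN.pointwise` in UN/Main.lean)
-/

namespace Forcing.CX

open Complex Metric Set MeasureTheory Filter Topology Forcing.RZ Forcing.UN

theorem exists_T {X : Set ℕ} {f : ℂ → ℂ} (hf : Continuous f) {M θ : ℝ} (hθ : 0 < θ)
    (hM : ∀ z ∈ AX X, ‖f z‖ ≤ M) :
    ∃ T : ℕ, ∀ z : ℂ, ‖z‖ = 1 → (∀ j < T, j ∈ X → ‖P j z‖ ≤ (1 / 2 : ℝ) ^ j) → ‖f z‖ ≤ M + θ := by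
  by_contra hcon
  push Not at hcon
  choose z hz1 hz2 hz3 using hcon
  obtain ⟨a, ha, φ, hφ, hlim⟩ := (isCompact_sphere (0 : ℂ) 1).tendsto_subseq
    (x := z) (fun n => by simpa using hz1 n)
  have h1 : a ∈ AX X := by
    refine ⟨by simpa using ha, fun j hj => ?_⟩
    have h2 : Tendsto (fun n => ‖P j ((z ∘ φ) n)‖) atTop (𝓝 ‖P j a‖) :=
      ((continuous_P j).norm.tendsto a).comp hlim
    refine le_of_tendsto h2 ?_
    filter_upwards [eventually_gt_atTop j] with n hn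
    exact hz2 _ j (lt_of_lt_of_le hn (hφ.id_le n)) hj
  have h2 : Tendsto (fun n => ‖f ((z ∘ φ) n)‖) atTop (𝓝 ‖f a‖) :=
    (hf.norm.tendsto a).comp hlim
  have h3 : M + θ ≤ ‖f a‖ := ge_of_tendsto' h2 fun n => (hz3 _).le
  have h4 := hM a h1
  linarith

open Classical in
theorem pointwise {X : Set ℕ} {J T : ℕ} {f : ℂ → ℂ} {M S : ℝ} (hM0 : 0 ≤ M) (hS0 : 0 ≤ S)
    (hT : ∀ z : ℂ, ‖z‖ = 1 → (∀ j < T, j ∈ X → ‖P j z‖ ≤ (1 / 2 : ℝ) ^ j) → ‖f z‖ ≤ M) {z : ℂ}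
    (hz : ‖z‖ = 1) (hfS : ‖f z‖ ≤ S) :
    g ((Finset.range J).filter (· ∈ X)) z * ‖f z‖ ≤
      M + S * ∑ j ∈ (Finset.Ico J T).filter (· ∈ X), 4 ^ j * ‖P j z‖ ^ 2 := by
  have hsum0 : 0 ≤ ∑ j ∈ (Finset.Ico J T).filter (· ∈ X), (4 : ℝ) ^ j * ‖P j z‖ ^ 2 :=
    Finset.sum_nonneg fun _ _ => by positivity
  have hg0 := g_nonneg ((Finset.range J).filter (· ∈ X)) z
  have hg1 := g_le_one ((Finset.range J).filter (· ∈ X)) z
  rcases eq_or_lt_of_le hg0 with h0 | h0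
  · rw [← h0, zero_mul]
    positivity
  have hmain : g ((Finset.range J).filter (· ∈ X)) z * ‖f z‖ ≤ ‖f z‖ := mul_le_of_le_one_left (norm_nonneg _) hg1
  have hsmall : ∀ j < J, j ∈ X → ‖P j z‖ ≤ (1 / 2 : ℝ) ^ j := by
    intro j hj hjX
    by_contra hcon
    push Not at hcon
    have h1 : (1 : ℝ) < 4 ^ j * ‖P j z‖ ^ 2 := by
      have h2 : ((1 / 2 : ℝ) ^ j) ^ 2 < ‖P j z‖ ^ 2 := by gcongr
      have h3 : (4 : ℝ) ^ j * ((1 / 2 : ℝ) ^ j) ^ 2 = 1 := by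
        rw [← pow_mul, mul_comm j 2, pow_mul, ← mul_pow]
        norm_num
      have h4 : (4 : ℝ) ^ j * ((1 / 2 : ℝ) ^ j) ^ 2 < 4 ^ j * ‖P j z‖ ^ 2 := by gcongr
      linarith
    have h5 : g ((Finset.range J).filter (· ∈ X)) z = 0 := by
      unfold g
      refine Finset.prod_eq_zero (Finset.mem_filter.2 ⟨Finset.mem_range.2 hj, hjX⟩) (max_eq_left ?_)
      linarith
    rw [h5] at h0
    exact lt_irrefl _ h0
  by_cases hall : ∀ j < T, j ∈ X → ‖P j z‖ ≤ (1 / 2 : ℝ) ^ j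
  · have h1 := hT z hz hall
    have h2 := mul_nonneg hS0 hsum0
    linarith
  · push Not at hall
    obtain ⟨j, hjT, hjX, hj⟩ := hall
    have hjJ : J ≤ j := by
      by_contra hcon
      exact absurd (hsmall j (not_le.1 hcon) hjX) (not_le.2 hj)
    have h1 : (1 : ℝ) ≤ 4 ^ j * ‖P j z‖ ^ 2 := by
      have h2 : ((1 / 2 : ℝ) ^ j) ^ 2 ≤ ‖P j z‖ ^ 2 := by gcongr
      have h3 : (4 : ℝ) ^ j * ((1 / 2 : ℝ) ^ j) ^ 2 = 1 := by
        rw [← pow_mul, mul_comm j 2, pow_mul, ← mul_pow]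
        norm_num
      have h4 : (4 : ℝ) ^ j * ((1 / 2 : ℝ) ^ j) ^ 2 ≤ 4 ^ j * ‖P j z‖ ^ 2 := by gcongr
      linarith
    have h2 : (1 : ℝ) ≤ ∑ j ∈ (Finset.Ico J T).filter (· ∈ X), 4 ^ j * ‖P j z‖ ^ 2 :=
      h1.trans (Finset.single_le_sum (f := fun j => (4 : ℝ) ^ j * ‖P j z‖ ^ 2)
        (fun _ _ => by positivity) (Finset.mem_filter.2 ⟨Finset.mem_Ico.2 ⟨hjJ, hjT⟩, hjX⟩))
    have h3 := mul_le_mul_of_nonneg_left h2 hS0
    linarith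

end Forcing.CX
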