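import Pool.Agent.Lib.MP_c80ac4_an.CX.CF
import Pool.Agent.Lib.MP_c80ac4_an.CX.Cut2

/-!
# Row CM: one class of frequencies (adaptation of `Forcing.UN.class_main`, UN/Main.lean)

`μ = dens (g F)`, `F = (Finset.range J).filter (· ∈ X)`, `C₀ = π Λ / 2 / ∫ g F` with `Λ` the
Lipschitz constant of `BL_g F` (`dec_dens`, `dens_prob`, `int_g`). `‖∫ z^m dμ‖ ≤ C₀ / m ≤ κ`.
`∫ ‖gp‖ dhaar = 1` by `gI_zero` with `C = 0`, `κ = 0` (`Sep σ Δ 0 0 A` follows from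
`Sep σ Δ C₀ κ A`), `dec_haar 1` and `int_gp_norm`. By `exists_T`, `pointwise` and
`g F z / ∫ g F ≤ 2 g F z`: `∫ ‖f‖ ‖gp‖ dμ ≤ 2 (M + δ/2) + 2 S ∑ j ∈ Ico J T, j ∈ X, 4^j / len j`,
`4^j / len j = (1/4) (1/2)^j`, `geom_le`: at most `2 M + δ + (1/2)^J S`. Then `class_fin`, `δ → 0`.
-/

namespace Forcing.CX

open Complex Metric Set MeasureTheory Filter Topology Forcing.RZ Forcing.UN

private theorem cm_int {ψ : ℂ → ℝ} (hψ : Continuous ψ) {ε : ℕ → ℂ} {σ : ℕ → ℤ} {η : ℝ}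
    (hε : ∀ n, ‖ε n‖ ≤ 1) (h0 : 0 ≤ η) (h1 : η ≤ 1) (A : Finset ℕ) :
    Integrable (fun z => ψ z * ‖gp ε σ η A z‖) haar := by
  obtain ⟨B, hB⟩ := (isCompact_sphere (0 : ℂ) 1).exists_bound_of_continuousOn hψ.continuousOn
  refine int_bdd haar_norm (hψ.measurable.mul (meas_gp ε σ η A).norm).aestronglyMeasurable
    (B := B * 2 ^ A.card) fun z hz => ?_
  have hB0 := (norm_nonneg _).trans (hB z (by simpa using hz))
  rw [norm_mul, norm_norm]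
  exact mul_le_mul (hB z (by simpa using hz)) (norm_gp_le hε h0 h1 A hz) (norm_nonneg _) hB0

private theorem cm_term (j : ℕ) : (4 : ℝ) ^ j * (1 / len j) = 1 / 4 * (1 / 2) ^ j := by
  have h8 : (8 : ℝ) ^ j = 4 ^ j * 2 ^ j := by rw [← mul_pow]; norm_num
  have h4 : (0 : ℝ) < 4 ^ j := by positivity
  have h2 : (0 : ℝ) < 2 ^ j := by positivity
  unfold len
  push_cast
  rw [h8, one_div_pow]
  field_simp

theorem class_main (X : Set ℕ) (J : ℕ) : ∃ C₀ : ℝ, 0 ≤ C₀ ∧ ∀ κ : ℝ, 0 < κ →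
    ∀ (s : Finset ℕ) (b : ℕ → ℂ) (M : ℝ), 0 ≤ M →
    (∀ z ∈ AX X, ‖∑ n ∈ s, b n * z ^ n‖ ≤ M) → (∀ m ∈ s, 1 ≤ m ∧ C₀ ≤ κ * m) →
    ∀ (A : Finset ℕ) (σ : ℕ → ℤ) (η : ℝ) (Δ : ℕ → ℝ), A ⊆ s → 0 ≤ η → η ≤ 1 →
    Sep σ Δ C₀ κ A →
    (∀ m ∈ s, ∀ n ∈ A, n ≠ m →
      2 * Δ n ≤ |(m : ℝ) - n| ∧ (η = 0 ∨ 2 * Δ n ≤ |(m : ℝ) - n - σ n|)) →
    (∀ n ∈ A, η = 0 ∨ 2 * Δ n ≤ |(σ n : ℝ)|) →
    (∀ ε : ℕ → ℂ, (∀ n, ‖ε n‖ ≤ 1) → ∀ j ∈ X, J ≤ j →
      ∫ z, ‖P j z‖ ^ 2 * ‖gp ε σ η A z‖ ∂haar ≤ 1 / len j) →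
    1 / 4 * ∑ n ∈ A, ‖b n‖ ≤ 2 * M + ((1 / 2) ^ J + 5 * κ) * ∑ n ∈ s, ‖b n‖ := by
  classical
  set F : Finset ℕ := (Finset.range J).filter (· ∈ X) with hF
  have hG2 := int_g F
  have hG : 0 < ∫ z, g F z ∂haar := by linarith
  obtain ⟨B, Λ, -, hΛ0, -, hΛ⟩ := BL_g F
  have hdec := dec_dens (continuous_g F) (g_nonneg F) hG hΛ
  set C : ℝ := Real.pi * Λ / 2 / ∫ z, g F z ∂haar with hCd
  have hC0 : 0 ≤ C := by
    have := Real.pi_pos
    positivity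
  have hprob := dens_prob (continuous_g F) (g_nonneg F) hG
  refine ⟨C, hC0, fun κ hκ s b M hM0 hM hs A σ η Δ hAs h0 h1 hA hsep hmm hsq => ?_⟩
  set S := ∑ n ∈ s, ‖b n‖ with hS
  have hS0 : 0 ≤ S := Finset.sum_nonneg fun _ _ => norm_nonneg _
  set f : ℂ → ℂ := fun z => ∑ n ∈ s, b n * z ^ n with hf
  have hfc : Continuous f := by
    simp only [hf]
    fun_prop
  have hfS : ∀ z : ℂ, ‖z‖ = 1 → ‖f z‖ ≤ S := by
    intro z hz
    refine (norm_sum_le _ _).trans (le_of_eq ?_)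
    refine Finset.sum_congr rfl fun n _ => ?_
    rw [norm_mul, norm_pow, hz, one_pow, mul_one]
  have hm : ∀ m ∈ s, ‖∫ z, z ^ m ∂(dens (g F))‖ ≤ κ := by
    intro m hms
    obtain ⟨hm1, hmC⟩ := hs m hms
    have hm0 : (0 : ℝ) < m := by exact_mod_cast hm1
    refine (hdec m hm1).trans ?_
    rw [Real.rpow_neg_one, ← div_eq_mul_inv, div_le_iff₀ hm0]
    exact hmC
  have hA0 : Sep σ Δ 0 0 A := ⟨hA.pos, hA.le, hA.sg, hA.sum, fun n _ => by simp⟩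
  have hone : ∀ ε : ℕ → ℂ, (∀ n, ‖ε n‖ ≤ 1) → ∫ z, ‖gp ε σ η A z‖ ∂haar = 1 := by
    intro ε hε
    have h2 := gI_zero (μ := haar) haar_norm le_rfl le_rfl (dec_haar 1) hε h0 h1 hA0
    rw [mul_zero] at h2
    have h3 : gI haar ε σ η A 0 = 1 := sub_eq_zero.1 (norm_le_zero_iff.1 h2)
    rw [int_gp_norm haar_norm hε h0 h1, h3, norm_one]
  refine le_of_forall_pos_le_add fun δ hδ => ?_
  obtain ⟨T, hT⟩ := exists_T (X := X) hfc (half_pos hδ) hM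
  have key : ∀ ε : ℕ → ℂ, (∀ n, ‖ε n‖ ≤ 1) →
      ∫ z, ‖∑ n ∈ s, b n * z ^ n‖ * ‖gp ε σ η A z‖ ∂(dens (g F)) ≤
      2 * M + δ + (1 / 2) ^ J * S := by
    intro ε hε
    change ∫ z, ‖f z‖ * ‖gp ε σ η A z‖ ∂(dens (g F)) ≤ 2 * M + δ + (1 / 2) ^ J * S
    rw [integral_dens (continuous_g F) (g_nonneg F) hG]
    set G := ∫ z, g F z ∂haar with hGd
    set I : Finset ℕ := (Finset.Ico J T).filter (· ∈ X) with hI
    have hint1 : Integrable (fun z => (g F z / G) • (‖f z‖ * ‖gp ε σ η A z‖)) haar := by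
      have h2 : Continuous fun z => (g F z / G) * ‖f z‖ := by
        have := continuous_g F
        fun_prop
      refine (cm_int (σ := σ) h2 hε h0 h1 A).congr (Eventually.of_forall fun z => ?_)
      simp only [smul_eq_mul]
      ring
    have hint2 : ∀ j ∈ I,
        Integrable (fun z => (4 ^ j * ‖P j z‖ ^ 2) * ‖gp ε σ η A z‖) haar := by
      intro j _
      refine cm_int ?_ hε h0 h1 A
      have := continuous_P j
      fun_prop
    have hint3 : Integrable (fun z => ‖gp ε σ η A z‖) haar := by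
      have := cm_int (ψ := fun _ => 1) continuous_const (σ := σ) hε h0 h1 A
      simpa using this
    have hint4 : Integrable (fun z => ∑ j ∈ I,
        (4 ^ j * ‖P j z‖ ^ 2) * ‖gp ε σ η A z‖) haar := integrable_finsetSum _ hint2
    have h2 : ∫ z, (g F z / G) • (‖f z‖ * ‖gp ε σ η A z‖) ∂haar ≤
        ∫ z, (2 * (M + δ / 2) * ‖gp ε σ η A z‖ + 2 * S * ∑ j ∈ I,
          (4 ^ j * ‖P j z‖ ^ 2) * ‖gp ε σ η A z‖) ∂haar := by
      refine integral_mono_ae hint1 ((hint3.const_mul _).add (hint4.const_mul _)) ?_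
      filter_upwards [haar_norm] with z hz
      have h3 := pointwise (X := X) (J := J) (by positivity : 0 ≤ M + δ / 2) hS0 hT hz (hfS z hz)
      have h4 : (g F z / G) ≤ 2 * g F z := by
        rw [div_le_iff₀ hG]
        nlinarith [g_nonneg F z]
      have h5 : (g F z / G) * ‖f z‖ ≤ 2 * (g F z * ‖f z‖) := by
        nlinarith [norm_nonneg (f z)]
      have h6 : 0 ≤ ‖gp ε σ η A z‖ := norm_nonneg _
      simp only [smul_eq_mul]
      rw [← Finset.sum_mul]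
      calc (g F z / G) * (‖f z‖ * ‖gp ε σ η A z‖) =
            ((g F z / G) * ‖f z‖) * ‖gp ε σ η A z‖ := by ring
        _ ≤ (2 * (M + δ / 2 + S * ∑ j ∈ I, 4 ^ j * ‖P j z‖ ^ 2)) *
            ‖gp ε σ η A z‖ := mul_le_mul_of_nonneg_right (by linarith) h6
        _ = _ := by ring
    refine h2.trans ?_
    rw [integral_add (hint3.const_mul _) (hint4.const_mul _), integral_const_mul,
      integral_const_mul, integral_finsetSum _ hint2, hone ε hε]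
    have h7 : ∑ j ∈ I, ∫ z, ((4 : ℝ) ^ j * ‖P j z‖ ^ 2) * ‖gp ε σ η A z‖ ∂haar ≤
        1 / 4 * (2 * (1 / 2) ^ J) := by
      calc ∑ j ∈ I, ∫ z, ((4 : ℝ) ^ j * ‖P j z‖ ^ 2) * ‖gp ε σ η A z‖ ∂haar
          ≤ ∑ j ∈ I, 1 / 4 * (1 / 2 : ℝ) ^ j := by
            refine Finset.sum_le_sum fun j hj => ?_
            obtain ⟨hj1, hj2⟩ := Finset.mem_filter.1 hj
            simp_rw [mul_assoc]
            rw [integral_const_mul, ← cm_term j]
            exact mul_le_mul_of_nonneg_left (hsq ε hε j hj2 (Finset.mem_Ico.1 hj1).1)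
              (by positivity)
        _ ≤ ∑ j ∈ Finset.Ico J T, 1 / 4 * (1 / 2 : ℝ) ^ j :=
            Finset.sum_le_sum_of_subset_of_nonneg (Finset.filter_subset _ _)
              fun _ _ _ => by positivity
        _ = 1 / 4 * ∑ j ∈ Finset.Ico J T, (1 / 2 : ℝ) ^ j := by rw [Finset.mul_sum]
        _ ≤ 1 / 4 * (2 * (1 / 2) ^ J) := by
            have := geom_le J T
            linarith
    have h8 := mul_le_mul_of_nonneg_left h7 (by positivity : 0 ≤ 2 * S)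
    linarith
  have := class_fin (dens_norm _) hC0 hκ.le hdec h0 h1 b hAs hA hm hsep hmm key
  linarith

end Forcing.CX
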