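import Pool.Agent.Lib.MP_c80ac4_an.CX.SQ

/-!
# Row CUT: the cut-off functions (adaptation of UN/Cutoff.lean)

`g F z = ∏ j ∈ F, max 0 (1 - 4^j ‖P j z‖²)`. `int_g`: `1 - ∑ j ∈ F, 4^j ‖P j z‖² ≤ g F z`,
`∫ ‖P j‖² ≤ 1 / len j = 1 / (4 * 8^j)` (`sq_P_haar`), `∑ 4^j / (4 * 8^j) ≤ (1/4) * 2`.
`BL`, `BL.mul`, `BL.cut`, `BL.one` and `pow_lip` are in UN/Cutoff.lean.
-/

namespace Forcing.CX

open Complex Metric Set MeasureTheory Filter Topology Forcing.RZ Forcing.UN

theorem g_nonneg (F : Finset ℕ) (z : ℂ) : 0 ≤ g F z :=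
  Finset.prod_nonneg fun _ _ => le_max_left _ _

theorem g_le_one (F : Finset ℕ) (z : ℂ) : g F z ≤ 1 := by
  refine Finset.prod_le_one (fun _ _ => le_max_left _ _) fun j _ => ?_
  refine max_le zero_le_one ?_
  have : (0 : ℝ) ≤ 4 ^ j * ‖P j z‖ ^ 2 := by positivity
  linarith

theorem continuous_g (F : Finset ℕ) : Continuous (g F) := by
  unfold g
  have := fun j => continuous_P j
  fun_prop

private theorem len_pos (j : ℕ) : 0 < len j := by
  unfold len
  positivity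

private theorem norm_pr_le {k : ℕ} {z : ℂ} (hz : ‖z‖ = 1) : ‖pr k z‖ ≤ 2 := by
  unfold pr
  refine (norm_add_le _ _).trans ?_
  rw [norm_pow, norm_pow, hz, one_pow, one_pow]
  norm_num

private theorem norm_P_le (j : ℕ) {z : ℂ} (hz : ‖z‖ = 1) : ‖P j z‖ ≤ 1 := by
  unfold P
  have h0 : (0 : ℝ) < ((2 * len j : ℕ) : ℝ) := by
    have := len_pos j
    positivity
  rw [norm_mul, norm_div, norm_one, Complex.norm_natCast, one_div, inv_mul_le_iff₀ h0, mul_one]
  refine (norm_sum_le _ _).trans ?_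
  refine (Finset.sum_le_sum fun l _ => norm_pr_le hz).trans ?_
  rw [Finset.sum_const, Finset.card_range, nsmul_eq_mul]
  push_cast
  linarith

private theorem pr_lip (k : ℕ) {z w : ℂ} (hz : ‖z‖ = 1) (hw : ‖w‖ = 1) :
    ‖pr k z - pr k w‖ ≤ ((vv k : ℝ) + ((vv k + dd k : ℕ) : ℝ)) * ‖z - w‖ := by
  unfold pr
  have h1 : z ^ vv k + z ^ (vv k + dd k) - (w ^ vv k + w ^ (vv k + dd k)) =
      (z ^ vv k - w ^ vv k) + (z ^ (vv k + dd k) - w ^ (vv k + dd k)) := by ring
  rw [h1, add_mul]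
  exact (norm_add_le _ _).trans (add_le_add (pow_lip _ hz hw) (pow_lip _ hz hw))

private theorem BL_P (j : ℕ) : BL fun z => ‖P j z‖ := by
  refine ⟨1, ‖(1 / ((2 * len j : ℕ) : ℂ))‖ * ∑ l ∈ Finset.range (len j),
    ((vv (Nat.pair j l) : ℝ) + ((vv (Nat.pair j l) + dd (Nat.pair j l) : ℕ) : ℝ)), by norm_num,
    by positivity, fun z hz => ?_, fun z w hz hw => ?_⟩
  · rw [abs_of_nonneg (norm_nonneg _)]
    exact norm_P_le j hz
  · refine (abs_norm_sub_norm_le _ _).trans ?_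
    unfold CX.P
    rw [← mul_sub, norm_mul, mul_assoc]
    refine mul_le_mul_of_nonneg_left ?_ (norm_nonneg _)
    rw [← Finset.sum_sub_distrib, Finset.sum_mul]
    exact (norm_sum_le _ _).trans (Finset.sum_le_sum fun n _ => pr_lip _ hz hw)

theorem BL_g (F : Finset ℕ) : BL (g F) := by
  unfold g
  induction F using Finset.induction_on with
  | empty => simpa using BL.one
  | insert j F hj ih =>
    simp_rw [Finset.prod_insert hj]
    exact ((BL_P j).cut (4 ^ j) (by positivity)).mul ih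

private theorem g_ge (F : Finset ℕ) (z : ℂ) :
    1 - ∑ j ∈ F, 4 ^ j * ‖P j z‖ ^ 2 ≤ g F z := by
  induction F using Finset.induction_on with
  | empty => simp [g]
  | insert j F hj ih =>
    have h1 := g_le_one F z
    have h0 := g_nonneg F z
    unfold g at h1 h0 ih ⊢
    rw [Finset.prod_insert hj, Finset.sum_insert hj]
    set y := ∏ j ∈ F, max 0 (1 - 4 ^ j * ‖P j z‖ ^ 2)
    set x := (4 : ℝ) ^ j * ‖P j z‖ ^ 2 with hx
    have hx0 : 0 ≤ x := by positivity
    have h2 : (1 - x) * y ≤ max 0 (1 - x) * y := mul_le_mul_of_nonneg_right (le_max_right _ _) h0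
    nlinarith

private theorem term_le (j : ℕ) :
    ∫ z, 4 ^ j * ‖P j z‖ ^ 2 ∂haar ≤ 1 / 4 * (1 / 2 : ℝ) ^ j := by
  rw [integral_const_mul]
  have h := sq_P_haar j
  have h1 : (4 : ℝ) ^ j * (1 / len j) = 1 / 4 * (1 / 2) ^ j := by
    have h8 : (8 : ℝ) ^ j = 4 ^ j * 2 ^ j := by
      rw [← mul_pow]
      norm_num
    unfold len
    push_cast
    rw [h8, div_pow, one_pow]
    field_simp
  rw [← h1]
  exact mul_le_mul_of_nonneg_left h (by positivity)

private theorem sum_half_le (F : Finset ℕ) : ∑ j ∈ F, (1 / 2 : ℝ) ^ j ≤ 2 := by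
  have h1 : F ⊆ Finset.Ico 0 (F.sup id + 1) := by
    intro j hj
    rw [Finset.mem_Ico]
    exact ⟨Nat.zero_le _, Nat.lt_succ_of_le (Finset.le_sup (f := id) hj)⟩
  have h2 := geom_le 0 (F.sup id + 1)
  rw [pow_zero, mul_one] at h2
  exact (Finset.sum_le_sum_of_subset_of_nonneg h1 fun _ _ _ => by positivity).trans h2

theorem int_g (F : Finset ℕ) : 1 / 2 ≤ ∫ z, g F z ∂haar := by
  have h1 : ∫ z, (1 - ∑ j ∈ F, 4 ^ j * ‖P j z‖ ^ 2) ∂haar ≤ ∫ z, g F z ∂haar := by
    refine integral_mono (int_cont haar_norm ?_) (int_cont haar_norm (continuous_g F))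
      fun z => g_ge F z
    have := fun j => continuous_P j
    fun_prop
  refine le_trans ?_ h1
  have hint : ∀ j ∈ F, Integrable (fun z => 4 ^ j * ‖P j z‖ ^ 2) haar := by
    intro j _
    refine int_cont haar_norm ?_
    have := continuous_P j
    fun_prop
  rw [integral_sub (integrable_const _) (integrable_finsetSum _ hint), integral_finsetSum _ hint]
  have h2 : ∑ j ∈ F, ∫ z, 4 ^ j * ‖P j z‖ ^ 2 ∂haar ≤ 1 / 4 * 2 := by
    refine (Finset.sum_le_sum fun j _ => term_le j).trans ?_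
    rw [← Finset.mul_sum]
    exact mul_le_mul_of_nonneg_left (sum_half_le F) (by norm_num)
  have h6 : ∫ _z : ℂ, (1 : ℝ) ∂haar = 1 := by simp
  rw [h6]
  linarith

end Forcing.CX
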