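import Pool.Agent.Lib.MP_c80ac4_an.UN.Main

/-! # Exact complexity of the family of boundary sets: definitions -/

namespace Forcing.CX

open Complex Metric Set MeasureTheory Filter Topology Forcing.RZ Forcing.UN

/-- the gadget of a pair -/
def gad (k : ℕ) : ℕ := (Nat.unpair k).1

/-- the row of a gadget -/
def row (j : ℕ) : ℕ := (Nat.unpair j).1

/-- the difference of the pair `k` -/
def dd (k : ℕ) : ℕ := 16 ^ ((k + 2) ^ 2)

/-- the lower frequency of the pair `k`; the upper one is `vv k + dd k` -/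
def vv (k : ℕ) : ℕ := 16 ^ ((k + 2) ^ 2 + row (gad k) + 1)

/-- number of pairs of a gadget -/
def len (j : ℕ) : ℕ := 4 * 8 ^ j

/-- the pair `k` -/
def pr (k : ℕ) (z : ℂ) : ℂ := z ^ vv k + z ^ (vv k + dd k)

/-- the test polynomial of the gadget `j` -/
noncomputable def P (j : ℕ) (z : ℂ) : ℂ :=
  (1 / ((2 * len j : ℕ) : ℂ)) * ∑ l ∈ Finset.range (len j), pr (Nat.pair j l) z

/-- the set of a set `X` of gadgets -/
def AX (X : Set ℕ) : Set ℂ := {z | ‖z‖ = 1 ∧ ∀ j ∈ X, ‖P j z‖ ≤ (1 / 2 : ℝ) ^ j}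

/-- `n` is near the pair `k` -/
def Near (k n : ℕ) : Prop := vv k ≤ 2 * n ∧ n ≤ 2 * vv k

/-- the factor of the frequency `n` of the compensated Riesz product -/
noncomputable def fac (ε : ℕ → ℂ) (σ : ℕ → ℤ) (η : ℝ) (n : ℕ) (z : ℂ) : ℂ :=
  1 + (ε n * z ^ (-(n : ℤ)) + (starRingEnd ℂ) (ε n) * z ^ (n : ℤ)) / 4
    - η * (ε n * z ^ (-((n : ℤ) + σ n)) + (starRingEnd ℂ) (ε n) * z ^ ((n : ℤ) + σ n)) / 4

/-- compensated Riesz product with frequencies in `A` -/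
noncomputable def gp (ε : ℕ → ℂ) (σ : ℕ → ℤ) (η : ℝ) (A : Finset ℕ) (z : ℂ) : ℂ :=
  ∏ n ∈ A, fac ε σ η n z

/-- its Fourier coefficients -/
noncomputable def gI (μ : Measure ℂ) (ε : ℕ → ℂ) (σ : ℕ → ℤ) (η : ℝ) (A : Finset ℕ) (m : ℤ) : ℂ :=
  ∫ z, z ^ m * gp ε σ η A z ∂μ

/-- the weight of a frequency -/
noncomputable def wt (σ : ℕ → ℤ) (n : ℕ) : ℝ := (n : ℝ) + |(σ n : ℝ)|

/-- separation of the class `A` with scale `Δ`, constants `C`, `κ` -/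
structure Sep (σ : ℕ → ℤ) (Δ : ℕ → ℝ) (C κ : ℝ) (A : Finset ℕ) : Prop where
  pos : ∀ n ∈ A, 0 < Δ n
  le : ∀ n ∈ A, 4 * Δ n ≤ n
  sg : ∀ n ∈ A, |(σ n : ℝ)| ≤ n / 2
  sum : ∀ n ∈ A, ∑ k ∈ A.filter (· < n), wt σ k ≤ Δ n
  dec : ∀ n ∈ A, C * 4 ^ (A.filter (· < n)).card ≤ κ * Δ n

/-- the cut-off function of a finite set of gadgets -/
noncomputable def g (F : Finset ℕ) (z : ℂ) : ℝ := ∏ j ∈ F, max 0 (1 - 4 ^ j * ‖P j z‖ ^ 2)

theorem continuous_P (j : ℕ) : Continuous (P j) := by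
  unfold P pr
  fun_prop

end Forcing.CX
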