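import Pool.Agent.Lib.MP_c80ac4_an.CX.GA
import Pool.Agent.Lib.MP_c80ac4_an.CX.Ari

/-!
# Row GC: exact zeros of the Fourier coefficients for length, classes without compensation

`gI_haar_out`: `gI_far` with `C = 0` (`dec_haar 1`) and `D = |m| - ∑ wt > 0`.
`gI_haar_one`: induction on the maximum, `gI_insert`, `gI_haar_out` at `±n`, `±(n + σ n)`.
`gI_haar_eq_zero` (η = 0): induction on the maximum `n` of `A = insert n B`:
`B = A.filter (· < n)`, so `gI B (m - n) = gI B (m + n) = 0` by `gI_haar_out`, the terms with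
`η = 0` vanish, `gI B m = 0` by induction; base: `haar_zero`.
`cross_far`: apply `gI_haar_eq_zero` with `m = vv k - b` and `m = vv k + dd k - b`: if `n` is not
near `k` then `2 n < vv k` or `n > 2 vv k`, so `|m - n| ≥ 3 n / 8` (`b ≤ dd k / 1000`,
`16 dd k ≤ vv k`).
-/

namespace Forcing.CX

open Complex Metric Set MeasureTheory Filter Topology Forcing.RZ Forcing.UN

variable {ε : ℕ → ℂ} {σ : ℕ → ℤ} {η : ℝ}

theorem gI_haar_out (hε : ∀ n, ‖ε n‖ ≤ 1) (h0 : 0 ≤ η) (h1 : η ≤ 1) (A : Finset ℕ) {m : ℤ}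
    (hm : ∑ n ∈ A, wt σ n < |(m : ℝ)|) : gI haar ε σ η A m = 0 := by
  set D : ℝ := |(m : ℝ)| - ∑ n ∈ A, wt σ n with hD
  have hD0 : 0 < D := by
    rw [hD]
    linarith
  have h := gI_far haar_norm le_rfl (dec_haar 1) hε h0 h1 hD0 A m (by rw [hD]; linarith)
  rw [zero_div, mul_zero] at h
  exact norm_eq_zero.1 (le_antisymm h (norm_nonneg _))

theorem gI_haar_eq_zero (hε : ∀ n, ‖ε n‖ ≤ 1) (A : Finset ℕ) {m : ℤ} (hm : 1 ≤ m)
    (h : ∀ n ∈ A, ∑ k ∈ A.filter (· < n), wt σ k < |(m : ℝ) - n|)
    (h' : ∀ n ∈ A, ∑ k ∈ A.filter (· < n), wt σ k < (m : ℝ) + n) :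
    gI haar ε σ 0 A m = 0 := by
  revert h h'
  refine Finset.induction_on_max A ?_ ?_
  · intro _ _
    rw [gI_empty]
    have e : m = ((m.toNat : ℕ) : ℤ) := (Int.toNat_of_nonneg (by omega)).symm
    rw [e]
    simp only [zpow_natCast]
    exact haar_zero (by omega)
  · intro n B hB ih h h'
    have hnB : n ∉ B := fun hn => lt_irrefl n (hB n hn)
    have wt0 : ∀ k, 0 ≤ wt σ k := fun k => by
      unfold wt
      positivity
    have hf : (insert n B).filter (· < n) = B := by
      ext x
      simp only [Finset.mem_filter, Finset.mem_insert]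
      constructor
      · rintro ⟨rfl | hx, hlt⟩
        · exact absurd hlt (lt_irrefl _)
        · exact hx
      · intro hx
        exact ⟨Or.inr hx, hB x hx⟩
    have h1 := h n (Finset.mem_insert_self n B)
    have h2 := h' n (Finset.mem_insert_self n B)
    rw [hf] at h1 h2
    have ih' : gI haar ε σ 0 B m = 0 := by
      apply ih
      · intro x hx
        refine lt_of_le_of_lt ?_ (h x (Finset.mem_insert_of_mem hx))
        exact Finset.sum_le_sum_of_subset_of_nonneg
          (Finset.filter_subset_filter _ (Finset.subset_insert n B)) (fun i _ _ => wt0 i)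
      · intro x hx
        refine lt_of_le_of_lt ?_ (h' x (Finset.mem_insert_of_mem hx))
        exact Finset.sum_le_sum_of_subset_of_nonneg
          (Finset.filter_subset_filter _ (Finset.subset_insert n B)) (fun i _ _ => wt0 i)
    have z1 : gI haar ε σ 0 B (m - n) = 0 := by
      apply gI_haar_out hε le_rfl zero_le_one
      push_cast
      exact h1
    have z2 : gI haar ε σ 0 B (m + n) = 0 := by
      apply gI_haar_out hε le_rfl zero_le_one
      push_cast
      exact lt_of_lt_of_le h2 (le_abs_self _)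
    rw [gI_insert haar_norm hε le_rfl zero_le_one hnB m, ih', z1, z2]
    simp

theorem cross_far (hε : ∀ n, ‖ε n‖ ≤ 1) {A : Finset ℕ}
    (hA : ∀ n ∈ A, ∑ i ∈ A.filter (· < n), wt σ i ≤ (n : ℝ) / 4) {k b : ℕ}
    (hk : ∀ n ∈ A, ¬ Near k n) (hb : 1000 * b ≤ dd k) :
    gI haar ε σ 0 A ((vv k : ℤ) - b) + gI haar ε σ 0 A ((vv k : ℤ) + dd k - b) = 0 := by
  have hd := dd_pos k
  have hdl := dd_le k
  have r1 : (1 : ℝ) ≤ dd k := by exact_mod_cast hd
  have r2 : (16 * dd k : ℝ) ≤ vv k := by exact_mod_cast hdl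
  have r3 : (1000 * b : ℝ) ≤ dd k := by exact_mod_cast hb
  have r4 : (0 : ℝ) ≤ b := Nat.cast_nonneg _
  have key : ∀ m : ℤ, (vv k : ℝ) - b ≤ m → (m : ℝ) ≤ vv k + dd k → gI haar ε σ 0 A m = 0 := by
    intro m hm1 hm2
    have hm0 : (0 : ℝ) < m := by linarith
    have hm : 1 ≤ m := by
      have : (0 : ℤ) < m := by exact_mod_cast hm0
      omega
    apply gI_haar_eq_zero hε A hm
    · intro n hn
      refine lt_of_le_of_lt (hA n hn) ?_
      have n0 : (0 : ℝ) ≤ n := Nat.cast_nonneg _
      have hnear := hk n hn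
      unfold Near at hnear
      rw [not_and_or, not_le, not_le] at hnear
      rcases hnear with h | h
      · have h' : (2 * n : ℝ) < vv k := by exact_mod_cast h
        refine lt_of_lt_of_le ?_ (le_abs_self _)
        linarith
      · have h' : (2 * vv k : ℝ) < n := by exact_mod_cast h
        refine lt_of_lt_of_le ?_ (neg_le_abs _)
        linarith
    · intro n hn
      refine lt_of_le_of_lt (hA n hn) ?_
      have n0 : (0 : ℝ) ≤ n := Nat.cast_nonneg _
      linarith
  rw [key ((vv k : ℤ) - b) (by push_cast; linarith) (by push_cast; linarith),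
    key ((vv k : ℤ) + dd k - b) (by push_cast; linarith) (by push_cast; linarith), add_zero]

end Forcing.CX
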