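import Pool.Agent.Lib.MP_c80ac4_an.CX.CM
import Pool.Agent.Lib.MP_c80ac4_an.CX.GC

/-!
# Row FC: the frequencies which are near no active pair

PROOF. `class_main X J` gives `C₀`; `N ≥ C₀ / κ`, `N ≥ C₀ / (κ c)`, `N ≥ 1`. Apply it with
`σ = 0`, `η = 0`, `Δ n = c * n`. `Sep`: `sum` by `RZ.gap_sum_le` (`n / (Q - 1) ≤ c n`), `dec` by
`RZ.gap_pow_le`: `C₀ * 4^card ≤ κ c N * Q^card ≤ κ c n`. The separation from `m ∈ s` is `RZ.sep`:
`(1 - 1/q) n ≤ |m - n|`. The mean square is `sq_le` with `cross_far` (`k` active: `gad k = j ∈ X`,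
`J ≤ j`; `b ∈ {vv l, vv l + dd l}`, `l < k`: `1000 b ≤ dd k` by `vv_le`, `dd_le`), and
`gI haar .. 0 = 1` by `gI_zero` with `C = κ = 0`.
-/

namespace Forcing.CX

open Complex Metric Set MeasureTheory Filter Topology Forcing.RZ Forcing.UN

theorem far_class (X : Set ℕ) (J : ℕ) {q Q c κ : ℝ} (hq : 1 < q) (hQ : 4 ≤ Q) (hc0 : 0 < c)
    (hc1 : 8 * c ≤ 1) (hcq : 2 * c ≤ 1 - 1 / q) (hQc : 1 / (Q - 1) ≤ c) (hκ : 0 < κ) :
    ∃ N : ℕ, 1 ≤ N ∧ ∀ (s : Finset ℕ) (b : ℕ → ℂ) (M : ℝ), LacSet q N (s : Set ℕ) → 0 ≤ M →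
      (∀ z ∈ AX X, ‖∑ n ∈ s, b n * z ^ n‖ ≤ M) → ∀ A ⊆ s,
      (∀ m ∈ A, ∀ n ∈ A, m < n → Q * m ≤ n) →
      (∀ n ∈ A, ∀ k, gad k ∈ X → J ≤ gad k → ¬ Near k n) →
      1 / 4 * ∑ n ∈ A, ‖b n‖ ≤ 2 * M + ((1 / 2) ^ J + 5 * κ) * ∑ n ∈ s, ‖b n‖ := by
  obtain ⟨C₀, hC0, hmain⟩ := class_main X J
  obtain ⟨N₁, hN₁⟩ := exists_nat_ge (C₀ / κ)
  obtain ⟨N₂, hN₂⟩ := exists_nat_ge (C₀ / (κ * c))
  refine ⟨N₁ + N₂ + 1, by omega, fun s b M hs hM0 hM A hAs hA hfar => ?_⟩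
  have hQ1 : 1 < Q := by linarith
  have hpos : ∀ n ∈ s, 1 ≤ n := fun n hn => (hs.1 n hn).1
  have hfil : ∀ n : ℕ, ∀ m ∈ A.filter (· < n), ∀ k ∈ A.filter (· < n), m < k → Q * m ≤ k :=
    fun n m hm k hk hmk => hA m (Finset.mem_filter.1 hm).1 k (Finset.mem_filter.1 hk).1 hmk
  have hfil2 : ∀ n ∈ A, ∀ m ∈ A.filter (· < n), Q * m ≤ n :=
    fun n hn m hm => hA m (Finset.mem_filter.1 hm).1 n hn (Finset.mem_filter.1 hm).2
  have hwt : ∀ n : ℕ, wt (fun _ => (0 : ℤ)) n = n := by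
    intro n
    simp [wt]
  have hsum : ∀ n ∈ A, ∑ k ∈ A.filter (· < n), wt (fun _ => (0 : ℤ)) k ≤ c * n := by
    intro n hn
    simp only [hwt]
    refine (gap_sum_le hQ1 _ (hfil n) n (Nat.cast_nonneg n) (hfil2 n hn)).trans ?_
    have h1 := mul_le_mul_of_nonneg_right hQc (Nat.cast_nonneg (α := ℝ) n)
    calc (n : ℝ) / (Q - 1) = 1 / (Q - 1) * n := by ring
      _ ≤ c * n := h1
  have hsep0 : Sep (fun _ => (0 : ℤ)) (fun n => c * n) 0 0 A := by
    refine ⟨fun n hn => ?_, fun n hn => ?_, fun n hn => ?_, hsum, fun n hn => ?_⟩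
    · have : (0 : ℝ) < n := by exact_mod_cast hpos n (hAs hn)
      positivity
    · have : (0 : ℝ) ≤ n := Nat.cast_nonneg n
      have h2 := mul_le_mul_of_nonneg_right hc1 this
      linarith
    · simp only [Int.cast_zero, abs_zero]
      positivity
    · simp
  have hsepC : Sep (fun _ => (0 : ℤ)) (fun n => c * n) C₀ κ A := by
    refine ⟨hsep0.pos, hsep0.le, hsep0.sg, hsum, fun n hn => ?_⟩
    have h1 := gap_pow_le hQ1 (N := N₂) (A.filter (· < n)) (hfil n)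
      (fun m hm => by
        have := (hs.1 m (hAs (Finset.mem_filter.1 hm).1)).2
        omega) n (by
        have h2 := (hs.1 n (hAs hn)).2
        have h3 : N₂ ≤ n := by omega
        exact_mod_cast h3) (hfil2 n hn)
    rw [div_le_iff₀ (by positivity)] at hN₂
    have h4 : (4 : ℝ) ^ (A.filter (· < n)).card ≤ Q ^ (A.filter (· < n)).card :=
      pow_le_pow_left₀ (by norm_num) hQ _
    calc C₀ * 4 ^ (A.filter (· < n)).card ≤ ((N₂ : ℝ) * (κ * c)) * Q ^ (A.filter (· < n)).card :=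
          mul_le_mul hN₂ h4 (by positivity) (by positivity)
      _ = κ * c * (N₂ * Q ^ (A.filter (· < n)).card) := by ring
      _ ≤ κ * c * n := mul_le_mul_of_nonneg_left h1 (by positivity)
      _ = κ * (c * n) := by ring
  refine hmain κ hκ s b M hM0 hM (fun m hm => ⟨hpos m hm, ?_⟩) A (fun _ => 0) 0 (fun n => c * n) hAs
    le_rfl zero_le_one hsepC (fun m hm n hn hne => ⟨?_, Or.inl rfl⟩) (fun n hn => Or.inl rfl) ?_
  · have h1 := (hs.1 m hm).2
    have h2 : N₁ ≤ m := by omega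
    have h3 : (N₁ : ℝ) ≤ m := by exact_mod_cast h2
    rw [div_le_iff₀ hκ] at hN₁
    calc C₀ ≤ N₁ * κ := hN₁
      _ ≤ m * κ := by gcongr
      _ = κ * m := by ring
  · have h1 := sep hq (hs.2 m hm n (hAs hn)) (hs.2 n (hAs hn) m hm) hne
    refine le_trans ?_ h1
    have h2 := mul_le_mul_of_nonneg_right hcq (Nat.cast_nonneg (α := ℝ) n)
    linarith
  · intro ε hε j hj hJj
    have hone : gI haar ε (fun _ => (0 : ℤ)) 0 A 0 = 1 := by
      have h1 := gI_zero haar_norm le_rfl le_rfl (dec_haar 1) hε le_rfl zero_le_one hsep0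
      rw [mul_zero] at h1
      exact sub_eq_zero.1 (norm_le_zero_iff.1 h1)
    refine sq_le hε le_rfl zero_le_one hone ?_
    intro k l hlk hk hl e he
    refine cross_far hε (fun n hn => ?_) (fun n hn => hfar n hn k (by rw [hk]; exact hj) (by rw [hk]; exact hJj)) ?_
    · refine (hsum n hn).trans ?_
      have h2 := mul_le_mul_of_nonneg_right hc1 (Nat.cast_nonneg (α := ℝ) n)
      have : (0 : ℝ) ≤ n := Nat.cast_nonneg n
      linarith
    · have h1 := vv_le hlk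
      have h2 := dd_le l
      rw [Finset.mem_insert, Finset.mem_singleton] at he
      rcases he with he | he <;> omega

end Forcing.CX
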