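import Pool.Agent.Lib.MP_c80ac4_an.CX.GC
import Pool.Agent.Lib.MP_c80ac4_an.CX.Ar2

/-!
# Row G3: near frequencies that are far from both frequencies of their pair

PROOF. `gI_haar_eq_zero` with `m = vv k - b` and `m = vv k + dd k - b` (both terms are zero). For
`n ∈ A`: the `i ∈ A`, `i < n` have `f i < f n` (`near_lt`, injectivity), so the sum of their weights
is `≤ dd (f n) / 1000` (`sum_wt`). If `f n = k` then `|m - n| ≥ dd k / 2 - b`. If `f n = l < k` then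
`n ≤ 2 vv l ≤ dd k / 2048` and `m ≥ 15 dd k`. If `f n = l > k` then `n ≥ vv l / 2 ≥ 8 dd l` and
`m ≤ 2 vv k ≤ dd l / 2048`.
-/

namespace Forcing.CX

open Complex Metric Set MeasureTheory Filter Topology Forcing.RZ Forcing.UN

variable {ε : ℕ → ℂ}

/-- one of the two terms -/
private theorem g3_aux (hε : ∀ n, ‖ε n‖ ≤ 1) {A : Finset ℕ} {f : ℕ → ℕ} (hf : Set.InjOn f (A : Set ℕ))
    (hn : ∀ n ∈ A, Near (f n) n) {k b : ℕ} (hb : 1000 * b ≤ dd k) {m : ℤ} {c : ℝ} (hc0 : 0 ≤ c)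
    (hc : c ≤ dd k) (hm : (m : ℝ) = vv k + c - b)
    (hfk : ∀ n ∈ A, f n = k → (dd k : ℝ) / 2 < |(n : ℝ) - (vv k + c)|) :
    gI haar ε (fun _ => 0) 0 A m = 0 := by
  have hbR : 1000 * (b : ℝ) ≤ dd k := by exact_mod_cast hb
  have hdk : (1 : ℝ) ≤ dd k := by exact_mod_cast dd_pos k
  have hvk : 16 * (dd k : ℝ) ≤ vv k := by exact_mod_cast dd_le k
  have hmR : 15 * (dd k : ℝ) ≤ m := by rw [hm]; linarith
  have hm1 : (1 : ℤ) ≤ m := by
    have : (1 : ℝ) ≤ m := by linarith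
    exact_mod_cast this
  have hb0 : (0 : ℝ) ≤ b := Nat.cast_nonneg b
  have hsum : ∀ n ∈ A, ∑ i ∈ A.filter (· < n), wt (fun _ => 0) i ≤ (dd (f n) : ℝ) / 1000 := by
    intro n hnA
    refine sum_wt (f := f) (hf.mono ?_) (fun i hi => hn i (Finset.mem_filter.1 hi).1) (fun i _ => by simp) (f n) ?_
    · intro i hi
      exact (Finset.mem_filter.1 (Finset.mem_coe.1 hi)).1
    · intro i hi
      obtain ⟨hiA, hin⟩ := Finset.mem_filter.1 hi
      exact near_lt (hn i hiA) (hn n hnA) hin fun he => hin.ne (hf hiA hnA he)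
  have hfacts : ∀ n ∈ A, (1 : ℝ) ≤ dd (f n) ∧ 16 * (dd (f n) : ℝ) ≤ vv (f n) ∧ (vv (f n) : ℝ) ≤ 2 * n ∧
      (n : ℝ) ≤ 2 * vv (f n) := by
    intro n hnA
    refine ⟨by exact_mod_cast dd_pos (f n), by exact_mod_cast dd_le (f n), ?_, ?_⟩
    · exact_mod_cast (hn n hnA).1
    · exact_mod_cast (hn n hnA).2
  refine gI_haar_eq_zero hε A hm1 ?_ ?_
  · intro n hnA
    refine lt_of_le_of_lt (hsum n hnA) ?_
    obtain ⟨e1, e2, e3, e4⟩ := hfacts n hnA
    rcases lt_trichotomy (f n) k with hl | hl | hl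
    · have e5 : 4096 * (vv (f n) : ℝ) ≤ dd k := by exact_mod_cast vv_le hl
      rw [lt_abs]
      left
      linarith
    · have e6 := hfk n hnA hl
      rw [hl]
      have e7 : |(n : ℝ) - (vv k + c)| ≤ |(m : ℝ) - n| + b := by
        have e8 : (n : ℝ) - (vv k + c) = -((m : ℝ) - n) - b := by rw [hm]; ring
        rw [e8]
        refine (abs_sub _ _).trans ?_
        rw [abs_neg, abs_of_nonneg hb0]
      linarith
    · have e5 : 4096 * (vv k : ℝ) ≤ dd (f n) := by exact_mod_cast vv_le hl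
      rw [lt_abs]
      right
      rw [hm]
      linarith
  · intro n hnA
    refine lt_of_le_of_lt (hsum n hnA) ?_
    obtain ⟨e1, e2, e3, e4⟩ := hfacts n hnA
    linarith

/-- class 3: near frequencies that are far from both frequencies of their pair -/
theorem cross3 (hε : ∀ n, ‖ε n‖ ≤ 1) {A : Finset ℕ} {f : ℕ → ℕ} (hf : Set.InjOn f (A : Set ℕ))
    (hn : ∀ n ∈ A, Near (f n) n)
    (h1 : ∀ n ∈ A, (dd (f n) : ℝ) / 2 < |(n : ℝ) - vv (f n)|)
    (h2 : ∀ n ∈ A, (dd (f n) : ℝ) / 2 < |(n : ℝ) - (vv (f n) + dd (f n))|) {k b : ℕ}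
    (hb : 1000 * b ≤ dd k) :
    gI haar ε (fun _ => 0) 0 A ((vv k : ℤ) - b) + gI haar ε (fun _ => 0) 0 A ((vv k : ℤ) + dd k - b) = 0 := by
  rw [g3_aux hε hf hn hb (c := 0) le_rfl (Nat.cast_nonneg _) (by push_cast; ring) (fun n hnA hfn => ?_),
    g3_aux hε hf hn hb (c := (dd k : ℝ)) (Nat.cast_nonneg _) le_rfl (by push_cast; ring) (fun n hnA hfn => ?_),
    add_zero]
  · have := h2 n hnA
    rw [hfn] at this
    exact this
  · have := h1 n hnA
    rw [hfn] at this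
    simpa using this

end Forcing.CX
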