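import Pool.Agent.Lib.MP_c80ac4_an.CX.GC
import Pool.Agent.Lib.MP_c80ac4_an.CX.Ar2

/-!
# Row GD: the compensated products do not see the pairs

PROOF of `cross1`. Induction on the maximum `n` of `A = insert n B` (the statement for all `A` with
the hypotheses). `near_lt`: `f i < f n` for `i ∈ B`, so by `sum_wt` `∑ i ∈ B, wt σ i ≤
dd (f n) / 1000` (and `≤ dd k / 1000` if `f n ≤ k`).
CASE `f n ≠ k`: all the numbers `m ∓ n`, `m ∓ (n + σ n)`, `m = vv k - b` or `vv k + dd k - b`, have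
modulus `> ∑ B wt` (if `f n < k` then `n`, `dd (f n) ≤ 2 vv (f n) ≤ dd k / 2000`; if `f n > k` then
`vv k + dd k ≤ 2 vv k ≤ dd (f n) / 2000`), so these terms vanish by `gI_haar_out`, and `gI B m` is
the induction hypothesis.
CASE `f n = k`: `gI B m = 0` (out, as `m ≥ vv k / 2`), the terms with `m + n` vanish, and with
`t = vv k - b - n` the rest is `ε n / 4 * (gI t - gI (t - dd k) + gI (t + dd k) - gI t)`, where
`|t ± dd k| ≥ dd k / 2 - b > ∑ B wt`: zero.
`cross2` is the same with `t' = vv k + dd k - b - n`, `σ n = - dd k`: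
`gI (t' - dd k) - gI t' + gI t' - gI (t' + dd k)`.
-/

namespace Forcing.CX

open Complex Metric Set MeasureTheory Filter Topology Forcing.RZ Forcing.UN

variable {ε : ℕ → ℂ} {σ : ℕ → ℤ}

private theorem gd_zero (hε : ∀ n, ‖ε n‖ ≤ 1) {B : Finset ℕ} {S : ℝ} (hS : ∑ i ∈ B, wt σ i ≤ S)
    {m : ℤ} (hm : S < |(m : ℝ)|) : gI haar ε σ 1 B m = 0 :=
  gI_haar_out hε zero_le_one le_rfl B (lt_of_le_of_lt hS hm)

/-- the step: if the four shifted coefficients vanish -/
private theorem gd_step (hε : ∀ n, ‖ε n‖ ≤ 1) {B : Finset ℕ} {n : ℕ} (hn : n ∉ B) (m : ℤ)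
    (h3 : gI haar ε σ 1 B (m + n) = 0) (h4 : gI haar ε σ 1 B (m + n + σ n) = 0) :
    gI haar ε σ 1 (insert n B) m = gI haar ε σ 1 B m
      + ε n / 4 * (gI haar ε σ 1 B (m - n) - gI haar ε σ 1 B (m - n - σ n)) := by
  rw [gI_insert haar_norm hε zero_le_one le_rfl hn m, h3, h4]
  push_cast
  ring

private theorem gd_core (hε : ∀ n, ‖ε n‖ ≤ 1) (f : ℕ → ℕ) (c : ℕ → ℝ) (s : ℤ)
    (hs : (s = 1 ∧ ∀ j, c j = vv j) ∨ (s = -1 ∧ ∀ j, c j = vv j + dd j)) {k b : ℕ}
    (hb : 1000 * b ≤ dd k) (A : Finset ℕ) : Set.InjOn f (A : Set ℕ) → (∀ n ∈ A, Near (f n) n) →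
    (∀ n ∈ A, |(n : ℝ) - c (f n)| ≤ (dd (f n) : ℝ) / 2) → (∀ n ∈ A, σ n = s * (dd (f n) : ℤ)) →
    gI haar ε σ 1 A ((vv k : ℤ) - b) + gI haar ε σ 1 A ((vv k : ℤ) + dd k - b) = 0 := by
  have hb' : 1000 * (b : ℝ) ≤ dd k := by exact_mod_cast hb
  have hD : (0 : ℝ) < dd k := by exact_mod_cast dd_pos k
  have hV : 16 * (dd k : ℝ) ≤ vv k := by exact_mod_cast dd_le k
  have hb0 : (0 : ℝ) ≤ b := Nat.cast_nonneg b
  induction A using Finset.induction_on_max with
  | empty =>
    intro _ _ _ _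
    have h0 : ∑ i ∈ (∅ : Finset ℕ), wt σ i ≤ 0 := by simp
    rw [gd_zero hε h0 (m := (vv k : ℤ) - b) (by push_cast; rw [lt_abs]; left; linarith),
      gd_zero hε h0 (m := (vv k : ℤ) + dd k - b) (by push_cast; rw [lt_abs]; left; linarith), add_zero]
  | insert n B hB ih =>
    intro hf hn h1 hσ
    have hnB : n ∉ B := fun h => lt_irrefl _ (hB n h)
    have hfB : Set.InjOn f (B : Set ℕ) := hf.mono (by
      intro x hx
      rw [Finset.coe_insert]
      exact Set.mem_insert_of_mem _ hx)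
    have hnB' : ∀ i ∈ B, Near (f i) i := fun i hi => hn i (Finset.mem_insert_of_mem hi)
    have hIH := ih hfB hnB' (fun i hi => h1 i (Finset.mem_insert_of_mem hi))
      (fun i hi => hσ i (Finset.mem_insert_of_mem hi))
    have hnn := hn n (Finset.mem_insert_self n B)
    have hlt : ∀ i ∈ B, f i < f n := by
      intro i hi
      refine near_lt (hnB' i hi) hnn (hB i hi) fun he => ?_
      have := hf (Finset.mem_coe.2 (Finset.mem_insert_of_mem hi)) (Finset.mem_coe.2 (Finset.mem_insert_self n B)) he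
      exact hnB (this ▸ hi)
    have hσr : ∀ i ∈ insert n B, |(σ i : ℝ)| ≤ dd (f i) := by
      intro i hi
      rw [hσ i hi]
      rcases hs with ⟨h, -⟩ | ⟨h, -⟩
      · subst h
        push_cast
        rw [one_mul, abs_of_nonneg (Nat.cast_nonneg _)]
      · subst h
        push_cast
        rw [neg_one_mul, abs_neg, abs_of_nonneg (Nat.cast_nonneg _)]
    have hS := sum_wt hfB hnB' (fun i hi => hσr i (Finset.mem_insert_of_mem hi)) (f n) hlt
    have hσn := abs_le.1 (hσr n (Finset.mem_insert_self n B))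
    have hDn : (0 : ℝ) < dd (f n) := by exact_mod_cast dd_pos (f n)
    have hVn : 16 * (dd (f n) : ℝ) ≤ vv (f n) := by exact_mod_cast dd_le (f n)
    have hn1 : (vv (f n) : ℝ) ≤ 2 * n := by exact_mod_cast hnn.1
    have hn2 : (n : ℝ) ≤ 2 * vv (f n) := by exact_mod_cast hnn.2
    have hn0 : (0 : ℝ) ≤ n := Nat.cast_nonneg n
    rcases lt_trichotomy (f n) k with hk | hk | hk
    · -- `f n < k`
      have hvk : 4096 * (vv (f n) : ℝ) ≤ dd k := by exact_mod_cast vv_le hk
      have hz : ∀ m : ℤ, (vv k : ℝ) - b ≤ (m : ℝ) → gI haar ε σ 1 (insert n B) m = gI haar ε σ 1 B m := by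
        intro m hm
        rw [gd_step hε hnB m
          (gd_zero hε hS (by push_cast; rw [lt_abs]; left; linarith))
          (gd_zero hε hS (by push_cast; rw [lt_abs]; left; linarith)),
          gd_zero hε hS (m := m - n) (by push_cast; rw [lt_abs]; left; linarith),
          gd_zero hε hS (m := m - n - σ n) (by push_cast; rw [lt_abs]; left; linarith)]
        ring
      rw [hz _ (by push_cast; linarith), hz _ (by push_cast; linarith)]
      exact hIH
    · -- `f n = k`
      rw [hk] at hS hσn hDn hVn hn1 hn2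
      have h1n := h1 n (Finset.mem_insert_self n B)
      have hσe := hσ n (Finset.mem_insert_self n B)
      rw [hk] at h1n hσe
      rw [abs_le] at h1n
      have hz : ∀ m : ℤ, (vv k : ℝ) - b ≤ (m : ℝ) → gI haar ε σ 1 (insert n B) m =
          ε n / 4 * (gI haar ε σ 1 B (m - n) - gI haar ε σ 1 B (m - n - σ n)) := by
        intro m hm
        rw [gd_step hε hnB m
          (gd_zero hε hS (by push_cast; rw [lt_abs]; left; linarith))
          (gd_zero hε hS (by push_cast; rw [lt_abs]; left; linarith)),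
          gd_zero hε hS (m := m) (by rw [lt_abs]; left; linarith), zero_add]
      rw [hz _ (by push_cast; linarith), hz _ (by push_cast; linarith), ← mul_add]
      rcases hs with ⟨hs, hc⟩ | ⟨hs, hc⟩
      · subst hs
        rw [one_mul] at hσe
        rw [hc] at h1n
        have e1 : (vv k : ℤ) + dd k - b - n - σ n = (vv k : ℤ) - b - n := by
          rw [hσe]
          ring
        rw [e1, gd_zero hε hS (m := (vv k : ℤ) - b - n - σ n) (by
            rw [hσe]; push_cast; rw [lt_abs]; right; linarith),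
          gd_zero hε hS (m := (vv k : ℤ) + dd k - b - n) (by
            push_cast; rw [lt_abs]; left; linarith)]
        ring
      · subst hs
        rw [neg_one_mul] at hσe
        rw [hc] at h1n
        have e1 : (vv k : ℤ) - b - n - σ n = (vv k : ℤ) + dd k - b - n := by
          rw [hσe]
          ring
        rw [e1, gd_zero hε hS (m := (vv k : ℤ) - b - n) (by
            push_cast; rw [lt_abs]; right; linarith),
          gd_zero hε hS (m := (vv k : ℤ) + dd k - b - n - σ n) (by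
            rw [hσe]; push_cast; rw [lt_abs]; left; linarith)]
        ring
    · -- `k < f n`
      have hvk : 4096 * (vv k : ℝ) ≤ dd (f n) := by exact_mod_cast vv_le hk
      have hz : ∀ m : ℤ, 0 ≤ (m : ℝ) → (m : ℝ) ≤ 2 * vv k → gI haar ε σ 1 (insert n B) m = gI haar ε σ 1 B m := by
        intro m hm0 hm
        rw [gd_step hε hnB m
          (gd_zero hε hS (by push_cast; rw [lt_abs]; left; linarith))
          (gd_zero hε hS (by push_cast; rw [lt_abs]; left; linarith)),
          gd_zero hε hS (m := m - n) (by push_cast; rw [lt_abs]; right; linarith),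
          gd_zero hε hS (m := m - n - σ n) (by push_cast; rw [lt_abs]; right; linarith)]
        ring
      rw [hz _ (by push_cast; linarith) (by push_cast; linarith), hz _ (by push_cast; linarith) (by push_cast; linarith)]
      exact hIH

theorem cross1 (hε : ∀ n, ‖ε n‖ ≤ 1) {A : Finset ℕ} {f : ℕ → ℕ} (hf : Set.InjOn f (A : Set ℕ))
    (hn : ∀ n ∈ A, Near (f n) n)
    (h1 : ∀ n ∈ A, |(n : ℝ) - vv (f n)| ≤ (dd (f n) : ℝ) / 2)
    (hσ : ∀ n ∈ A, σ n = dd (f n)) {k b : ℕ} (hb : 1000 * b ≤ dd k) :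
    gI haar ε σ 1 A ((vv k : ℤ) - b) + gI haar ε σ 1 A ((vv k : ℤ) + dd k - b) = 0 :=
  gd_core hε f (fun j => (vv j : ℝ)) 1 (Or.inl ⟨rfl, fun _ => rfl⟩) hb A hf hn h1
    (fun n h => by rw [hσ n h, one_mul])

theorem cross2 (hε : ∀ n, ‖ε n‖ ≤ 1) {A : Finset ℕ} {f : ℕ → ℕ} (hf : Set.InjOn f (A : Set ℕ))
    (hn : ∀ n ∈ A, Near (f n) n)
    (h1 : ∀ n ∈ A, |(n : ℝ) - (vv (f n) + dd (f n))| ≤ (dd (f n) : ℝ) / 2)
    (hσ : ∀ n ∈ A, σ n = -(dd (f n) : ℤ)) {k b : ℕ} (hb : 1000 * b ≤ dd k) :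
    gI haar ε σ 1 A ((vv k : ℤ) - b) + gI haar ε σ 1 A ((vv k : ℤ) + dd k - b) = 0 :=
  gd_core hε f (fun j => (vv j : ℝ) + dd j) (-1) (Or.inr ⟨rfl, fun _ => rfl⟩) hb A hf hn h1
    (fun n h => by rw [hσ n h, neg_one_mul])

end Forcing.CX
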