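import Pool.Agent.Lib.MP_c80ac4_an.CX.NC
import Pool.Agent.Lib.MP_c80ac4_an.CX.GD
import Pool.Agent.Lib.MP_c80ac4_an.CX.G3

/-!
# Row NP: the near part of a class

PROOF. Choose `f n = k` from `hk` (`row (gad k) ≥ r` by `hJ`). `f` is injective on `A`: if
`f m = f n`, `m < n` then `Q m ≤ n ≤ 2 vv ≤ 4 m`, but `Q > 4`, `m ≥ 1`. Split `A` into `A1` =
`{|n - vv (f n)| ≤ dd (f n) / 2}` (`near_class` with `σ n = dd (f n)`, `η = 1`, `cross1`), `A2` =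
`{not in A1, |n - (vv + dd)| ≤ dd / 2}` (`σ n = - dd (f n)`, `η = 1`, `cross2`) and `A3` = the rest
(`σ = fun _ => 0`, `η = 0`, `cross3`), and add the three bounds.
-/

namespace Forcing.CX

open Complex Metric Set MeasureTheory Filter Topology Forcing.RZ Forcing.UN

theorem near_part (X : Set ℕ) (J : ℕ) {q Q κ : ℝ} (hq : 1 < q) (hQ : 4 < Q) (hκ : 0 < κ) {r : ℕ}
    (hr : 8 ≤ (1 - 1 / q) * 16 ^ (r + 1)) (hJ : ∀ j ∈ X, J ≤ j → r ≤ row j) :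
    ∃ N : ℕ, 1 ≤ N ∧ ∀ (s : Finset ℕ) (b : ℕ → ℂ) (M : ℝ), LacSet q N (s : Set ℕ) → 0 ≤ M →
      (∀ z ∈ AX X, ‖∑ n ∈ s, b n * z ^ n‖ ≤ M) → ∀ A ⊆ s,
      (∀ m ∈ A, ∀ n ∈ A, m < n → Q * m ≤ n) →
      (∀ n ∈ A, ∃ k, gad k ∈ X ∧ J ≤ gad k ∧ Near k n) →
      1 / 4 * ∑ n ∈ A, ‖b n‖ ≤ 3 * (2 * M + ((1 / 2) ^ J + 5 * κ) * ∑ n ∈ s, ‖b n‖) := by
  classical
  obtain ⟨N, hN, hmain⟩ := near_class X J hq hκ hr
  refine ⟨N, hN, fun s b M hs hM hMb A hA hgap hk => ?_⟩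
  -- the pair of a frequency
  choose! f hfX hfJ hfn using hk
  have hvpos : ∀ k, 0 < vv k := fun k => by unfold vv; positivity
  have hlt : ∀ m ∈ A, ∀ n ∈ A, f m = f n → ¬ m < n := by
    intro m hm n hn hmn hlt
    have h1 := hgap m hm n hn hlt
    have h2 : n ≤ 2 * vv (f n) := (hfn n hn).2
    have h3 : vv (f m) ≤ 2 * m := (hfn m hm).1
    rw [hmn] at h3
    have h4 : n ≤ 4 * m := by omega
    have h5 : 0 < m := by
      have := hvpos (f n)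
      omega
    have h4' : (n : ℝ) ≤ 4 * m := by exact_mod_cast h4
    have h5' : (0 : ℝ) < m := by exact_mod_cast h5
    nlinarith
  have hf : Set.InjOn f (A : Set ℕ) := by
    intro m hm n hn hmn
    have hm' : m ∈ A := hm
    have hn' : n ∈ A := hn
    have h1 := hlt m hm' n hn' hmn
    have h2 := hlt n hn' m hm' hmn.symm
    omega
  have hrow : ∀ n ∈ A, r ≤ row (gad (f n)) := fun n hn => hJ _ (hfX n hn) (hfJ n hn)
  -- the three classes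
  set A1 := A.filter fun n : ℕ => |(n : ℝ) - vv (f n)| ≤ (dd (f n) : ℝ) / 2 with hA1
  set A' := A.filter fun n : ℕ => ¬ |(n : ℝ) - vv (f n)| ≤ (dd (f n) : ℝ) / 2 with hA'
  set A2 := A'.filter fun n : ℕ => |(n : ℝ) - (vv (f n) + dd (f n))| ≤ (dd (f n) : ℝ) / 2 with hA2
  set A3 := A'.filter fun n : ℕ => ¬ |(n : ℝ) - (vv (f n) + dd (f n))| ≤ (dd (f n) : ℝ) / 2 with hA3
  have s1 : A1 ⊆ A := Finset.filter_subset _ _
  have s' : A' ⊆ A := Finset.filter_subset _ _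
  have s2 : A2 ⊆ A := (Finset.filter_subset _ _).trans s'
  have s3 : A3 ⊆ A := (Finset.filter_subset _ _).trans s'
  have m1 : ∀ n ∈ A1, |(n : ℝ) - vv (f n)| ≤ (dd (f n) : ℝ) / 2 := fun n hn => (Finset.mem_filter.1 hn).2
  have m2 : ∀ n ∈ A2, |(n : ℝ) - (vv (f n) + dd (f n))| ≤ (dd (f n) : ℝ) / 2 := fun n hn => (Finset.mem_filter.1 hn).2
  have m3 : ∀ n ∈ A3, (dd (f n) : ℝ) / 2 < |(n : ℝ) - vv (f n)| := fun n hn =>
    not_le.1 (Finset.mem_filter.1 (Finset.mem_filter.1 hn).1).2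
  have m3' : ∀ n ∈ A3, (dd (f n) : ℝ) / 2 < |(n : ℝ) - (vv (f n) + dd (f n))| := fun n hn =>
    not_le.1 (Finset.mem_filter.1 hn).2
  have f1 : Set.InjOn f (A1 : Set ℕ) := hf.mono (by exact_mod_cast s1)
  have f2 : Set.InjOn f (A2 : Set ℕ) := hf.mono (by exact_mod_cast s2)
  have f3 : Set.InjOn f (A3 : Set ℕ) := hf.mono (by exact_mod_cast s3)
  have b1 := hmain s b M hs hM hMb A1 (s1.trans hA) f (fun n => (dd (f n) : ℤ)) 1 f1 (fun n hn => hfn n (s1 hn))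
    (fun n hn => hrow n (s1 hn)) zero_le_one le_rfl
    (fun n _ => by rw [Int.cast_natCast, abs_of_nonneg (Nat.cast_nonneg _)])
    (Or.inr fun n _ => by rw [Int.cast_natCast, abs_of_nonneg (Nat.cast_nonneg _)])
    (fun ε hε k c hc => cross1 hε f1 (fun n hn => hfn n (s1 hn)) m1 (fun n _ => rfl) hc)
  have b2 := hmain s b M hs hM hMb A2 (s2.trans hA) f (fun n => -(dd (f n) : ℤ)) 1 f2 (fun n hn => hfn n (s2 hn))
    (fun n hn => hrow n (s2 hn)) zero_le_one le_rfl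
    (fun n _ => by rw [Int.cast_neg, Int.cast_natCast, abs_neg, abs_of_nonneg (Nat.cast_nonneg _)])
    (Or.inr fun n _ => by rw [Int.cast_neg, Int.cast_natCast, abs_neg, abs_of_nonneg (Nat.cast_nonneg _)])
    (fun ε hε k c hc => cross2 hε f2 (fun n hn => hfn n (s2 hn)) m2 (fun n _ => rfl) hc)
  have b3 := hmain s b M hs hM hMb A3 (s3.trans hA) f (fun _ => 0) 0 f3 (fun n hn => hfn n (s3 hn))
    (fun n hn => hrow n (s3 hn)) le_rfl zero_le_one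
    (fun n _ => by rw [Int.cast_zero, abs_zero]; exact Nat.cast_nonneg _)
    (Or.inl rfl)
    (fun ε hε k c hc => cross3 hε f3 (fun n hn => hfn n (s3 hn)) m3 m3' hc)
  have e1 : ∑ n ∈ A1, ‖b n‖ + ∑ n ∈ A', ‖b n‖ = ∑ n ∈ A, ‖b n‖ := Finset.sum_filter_add_sum_filter_not _ _ _
  have e2 : ∑ n ∈ A2, ‖b n‖ + ∑ n ∈ A3, ‖b n‖ = ∑ n ∈ A', ‖b n‖ := Finset.sum_filter_add_sum_filter_not _ _ _
  rw [← e1, ← e2]
  linarith

end Forcing.CX
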