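import Pool.Agent.Lib.MP_c80ac4_an.CX.FC
import Pool.Agent.Lib.MP_c80ac4_an.CX.NP

/-!
# Row FIN: finite rows give the Sidon inequalities (adaptation of `Forcing.UN.sidonOn_union`)

PROOF. `q > 1`; `c = min ((1 - 1/q)/2) (1/8)`, `Q = 5 + 1/c`, `Q ≤ q^L`, `κ = 1/(320 (L+1))`,
`r` with `8 ≤ (1 - 1/q) 16^(r+1)`, `J` with `(1/2)^J ≤ 1/(64 (L+1))` and `J >` all `j ∈ X` with
`row j < r` (finitely many by `h`). So `x = (1/2)^J + 5κ ≤ 1/(32 (L+1))`. `N = max` of the `N` of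
`far_class` and `near_part`. For `s`, `b`, `M` and a class `A = {n ∈ s | cls q (L+1) n = i}`
(`cls_gap`: `Q`-lacunary) split `A` into the `n` with some `k`, `gad k ∈ X`, `J ≤ gad k`, `Near k n`
(`near_part`) and the others (`far_class`): `(1/4) ∑_A ‖b n‖ ≤ 4 (2 M + x S)`, hence
`(1/4) S ≤ (L+1) 4 (2 M + x S) ≤ 8 (L+1) M + S/8`, `S ≤ 64 (L+1) M`.
-/

namespace Forcing.CX

open Complex Metric Set MeasureTheory Filter Topology Forcing.RZ Forcing.UN

theorem sidonOn_AX {X : Set ℕ} (h : ∀ m, {j | j ∈ X ∧ row j = m}.Finite) : SidonOn (AX X) := by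
  classical
  intro q hq
  have hq0 : 0 < q := by linarith
  have hqi : 1 / q < 1 := by rw [div_lt_one hq0]; exact hq
  set c : ℝ := min ((1 - 1 / q) / 2) (1 / 8) with hc
  have hc0 : 0 < c := lt_min (by linarith) (by norm_num)
  have hc1 : 8 * c ≤ 1 := by
    have := min_le_right ((1 - 1 / q) / 2) (1 / 8 : ℝ)
    linarith
  have hcq : 2 * c ≤ 1 - 1 / q := by
    have := min_le_left ((1 - 1 / q) / 2) (1 / 8 : ℝ)
    linarith
  set Q : ℝ := 5 + 1 / c with hQ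
  have hic : 0 < 1 / c := by positivity
  have hQ4 : 4 < Q := by rw [hQ]; linarith
  have hQc : 1 / (Q - 1) ≤ c := by
    rw [div_le_iff₀ (by linarith)]
    calc (1 : ℝ) = c * (1 / c) := by field_simp
      _ ≤ c * (Q - 1) := by
          gcongr
          rw [hQ]
          linarith
  obtain ⟨L, hL⟩ := pow_unbounded_of_one_lt Q hq
  have hL0 : (0 : ℝ) ≤ L := Nat.cast_nonneg L
  set κ : ℝ := 1 / (320 * (L + 1)) with hκd
  have hκ0 : 0 < κ := by positivity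
  obtain ⟨r, hr0⟩ := pow_unbounded_of_one_lt (8 / (1 - 1 / q)) (by norm_num : (1 : ℝ) < 16)
  have hr : 8 ≤ (1 - 1 / q) * 16 ^ (r + 1) := by
    rw [div_lt_iff₀ (by linarith)] at hr0
    have h1 : (0 : ℝ) < 16 ^ r := by positivity
    have h2 : (0 : ℝ) < (1 - 1 / q) * 16 ^ r := mul_pos (by linarith) h1
    rw [pow_succ]
    linarith
  have hfin : {j | j ∈ X ∧ row j < r}.Finite := by
    refine ((Finset.range r).finite_toSet.biUnion fun m _ => h m).subset ?_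
    intro j hj
    simp only [Set.mem_iUnion, Set.mem_setOf_eq]
    exact ⟨row j, Finset.mem_coe.2 (Finset.mem_range.2 hj.2), hj.1, rfl⟩
  obtain ⟨J₂, hJ₂⟩ := hfin.bddAbove
  obtain ⟨J₁, hJ₁⟩ : ∃ J : ℕ, (1 / 2 : ℝ) ^ J < 1 / (64 * (L + 1)) :=
    exists_pow_lt_of_lt_one (by positivity) (by norm_num)
  set J : ℕ := max J₁ (J₂ + 1) with hJd
  have hJ : (1 / 2 : ℝ) ^ J < 1 / (64 * (L + 1)) :=
    lt_of_le_of_lt (pow_le_pow_of_le_one (by norm_num) (by norm_num) (le_max_left _ _)) hJ₁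
  have hJr : ∀ j ∈ X, J ≤ j → r ≤ row j := by
    intro j hj hJj
    by_contra hlt
    have h1 : j ≤ J₂ := hJ₂ ⟨hj, not_le.1 hlt⟩
    have h2 : J₂ + 1 ≤ J := le_max_right _ _
    omega
  obtain ⟨N₀, -, h₀⟩ := far_class X J hq hQ4.le hc0 hc1 hcq hQc hκ0
  obtain ⟨N₁, -, h₁⟩ := near_part X J hq hQ4 hκ0 hr hJr
  refine ⟨max N₀ N₁, 64 * (L + 1), fun s b M hs hM0 hM => ?_⟩
  set S := ∑ n ∈ s, ‖b n‖ with hS
  have hS0 : 0 ≤ S := Finset.sum_nonneg fun _ _ => norm_nonneg _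
  have hgap : ∀ i : ℕ, ∀ A ⊆ s, (∀ n ∈ A, cls q (L + 1) n = i) →
      ∀ m ∈ A, ∀ n ∈ A, m < n → Q * m ≤ n := by
    intro i A hAs hAr m hm n hn hmn
    exact cls_gap hq hL.le (hs.1 m (hAs hm)).1 (hs.2 m (hAs hm) n (hAs hn) hmn)
      ((hAr m hm).trans (hAr n hn).symm)
  have hx : ((1 / 2) ^ J + 5 * κ) ≤ 1 / (32 * (L + 1)) := by
    have h1 : 1 / (64 * ((L : ℝ) + 1)) + 5 * κ = 1 / (32 * (L + 1)) := by
      rw [hκd]
      field_simp
      norm_num
    linarith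
  have hclass : ∀ i ∈ Finset.range (L + 1), 1 / 4 * ∑ n ∈ s with cls q (L + 1) n = i, ‖b n‖ ≤
      8 * M + 4 * (1 / (32 * (L + 1))) * S := by
    intro i _
    set A := s.filter (fun n => cls q (L + 1) n = i) with hA
    have hA0 := h₀ s b M (hs.mono (le_max_left _ _) le_rfl) hM0 hM
      (A.filter (fun n => ¬ ∃ k, gad k ∈ X ∧ J ≤ gad k ∧ Near k n))
      ((Finset.filter_subset _ _).trans (Finset.filter_subset _ _))
      (hgap i _ ((Finset.filter_subset _ _).trans (Finset.filter_subset _ _))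
        (fun n hn => (Finset.mem_filter.1 (Finset.mem_filter.1 hn).1).2))
      (fun n hn k hk1 hk2 hk3 => (Finset.mem_filter.1 hn).2 ⟨k, hk1, hk2, hk3⟩)
    have hA1 := h₁ s b M (hs.mono (le_max_right _ _) le_rfl) hM0 hM
      (A.filter (fun n => ∃ k, gad k ∈ X ∧ J ≤ gad k ∧ Near k n))
      ((Finset.filter_subset _ _).trans (Finset.filter_subset _ _))
      (hgap i _ ((Finset.filter_subset _ _).trans (Finset.filter_subset _ _))
        (fun n hn => (Finset.mem_filter.1 (Finset.mem_filter.1 hn).1).2))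
      (fun n hn => (Finset.mem_filter.1 hn).2)
    have h2 : ∑ n ∈ A, ‖b n‖ = ∑ n ∈ A with (∃ k, gad k ∈ X ∧ J ≤ gad k ∧ Near k n), ‖b n‖ +
        ∑ n ∈ A with ¬ (∃ k, gad k ∈ X ∧ J ≤ gad k ∧ Near k n), ‖b n‖ :=
      (Finset.sum_filter_add_sum_filter_not _ _ _).symm
    have h3 := mul_le_mul_of_nonneg_right hx hS0
    rw [h2]
    linarith
  have hsum : S = ∑ i ∈ Finset.range (L + 1), ∑ n ∈ s with cls q (L + 1) n = i, ‖b n‖ := by
    rw [hS, Finset.sum_fiberwise_of_maps_to]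
    intro n _
    rw [Finset.mem_range]
    exact Nat.mod_lt _ (Nat.succ_pos L)
  have hfin2 : 1 / 4 * S ≤ (L + 1) * (8 * M + 4 * (1 / (32 * (L + 1))) * S) := by
    conv_lhs => rw [hsum]
    rw [Finset.mul_sum]
    refine (Finset.sum_le_sum hclass).trans ?_
    rw [Finset.sum_const, Finset.card_range, nsmul_eq_mul]
    push_cast
    exact le_rfl
  have h5 : ((L : ℝ) + 1) * (8 * M + 4 * (1 / (32 * (L + 1))) * S) = 8 * (L + 1) * M + S / 8 := by
    field_simp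
    ring
  rw [h5] at hfin2
  linarith

end Forcing.CX
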