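import Pool.Agent.Lib.MP_c80ac4_an.CX.Defs

/-!
# Row GA: compensated Riesz products, basic properties (adaptation of RieszA.lean)

`fac` is `1 + Re (ε n z^(-n)) / 2 - η Re (ε n z^(-(n+σ n))) / 2` on the circle, in `[0, 2]`.
All lemmas are as in `Forcing.RZ` (RieszA.lean: `meas_rp`, `norm_rp_le`, `rp_nonneg`, `int_rp`,
`rI_insert`, `rI_empty`, `rI_far`; RieszC.lean: `int_rp_norm`; UN/Cls.lean: `rI_neg`).
`gI_far`: with `X = 2^card * (C * D^(-1))` for the smaller set, the new one is at most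
`X + 4 * X / 4 = 2 X`: five terms, `|m ∓ n|, |m ∓ (n + σ n)| ≥ |m| - wt σ n`.
-/

namespace Forcing.CX

open Complex Metric Set MeasureTheory Filter Topology Forcing.RZ Forcing.UN

variable {μ : Measure ℂ} {ε : ℕ → ℂ} {σ : ℕ → ℤ} {η : ℝ}

private theorem GA_conj {z : ℂ} (hz : ‖z‖ = 1) (k : ℤ) (e : ℂ) :
    (starRingEnd ℂ) e * z ^ k = (starRingEnd ℂ) (e * z ^ (-k)) := by
  rw [map_mul, map_zpow₀]
  congr 1
  have hz1 : (starRingEnd ℂ) z = z⁻¹ := by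
    rw [Complex.inv_def, Complex.normSq_eq_norm_sq, hz]; simp
  rw [hz1, zpow_neg, inv_zpow, inv_inv]

private theorem GA_re {z : ℂ} (hz : ‖z‖ = 1) (k : ℤ) {e : ℂ} (he : ‖e‖ ≤ 1) : |(e * z ^ k).re| ≤ 1 := by
  refine (Complex.abs_re_le_norm _).trans ?_
  rw [norm_mul, norm_zpow, hz, one_zpow, mul_one]
  exact he

private theorem GA_fac (hε : ∀ n, ‖ε n‖ ≤ 1) (h0 : 0 ≤ η) (h1 : η ≤ 1) (n : ℕ) {z : ℂ}
    (hz : ‖z‖ = 1) : ∃ t : ℝ, 0 ≤ t ∧ t ≤ 2 ∧ fac ε σ η n z = t := by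
  have a1 := abs_le.1 (GA_re hz (-(n : ℤ)) (hε n))
  have a2 := abs_le.1 (GA_re hz (-((n : ℤ) + σ n)) (hε n))
  refine ⟨1 + (ε n * z ^ (-(n : ℤ))).re / 2 - η * (ε n * z ^ (-((n : ℤ) + σ n))).re / 2, ?_, ?_, ?_⟩
  · have b1 := mul_le_mul_of_nonneg_left a2.2 h0
    linarith [a1.1]
  · have b1 := mul_le_mul_of_nonneg_left a2.1 h0
    linarith [a1.2]
  · unfold fac
    rw [GA_conj hz (n : ℤ), GA_conj hz ((n : ℤ) + σ n), Complex.add_conj, Complex.add_conj]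
    push_cast
    ring

theorem gp_nonneg (hε : ∀ n, ‖ε n‖ ≤ 1) (h0 : 0 ≤ η) (h1 : η ≤ 1) (A : Finset ℕ) {z : ℂ}
    (hz : ‖z‖ = 1) : ∃ t : ℝ, 0 ≤ t ∧ gp ε σ η A z = t := by
  choose t ht0 _ ht using fun n => GA_fac (σ := σ) hε h0 h1 n hz
  refine ⟨∏ n ∈ A, t n, Finset.prod_nonneg fun n _ => ht0 n, ?_⟩
  unfold gp
  rw [Complex.ofReal_prod]
  exact Finset.prod_congr rfl fun n _ => ht n

theorem norm_gp_le (hε : ∀ n, ‖ε n‖ ≤ 1) (h0 : 0 ≤ η) (h1 : η ≤ 1) (A : Finset ℕ) {z : ℂ}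
    (hz : ‖z‖ = 1) : ‖gp ε σ η A z‖ ≤ 2 ^ A.card := by
  unfold gp
  rw [norm_prod, ← Finset.prod_const]
  refine Finset.prod_le_prod (fun n _ => norm_nonneg _) fun n _ => ?_
  obtain ⟨t, ht0, ht2, ht⟩ := GA_fac (σ := σ) hε h0 h1 n hz
  rw [ht, Complex.norm_real, Real.norm_of_nonneg ht0]
  exact ht2

theorem meas_gp (ε : ℕ → ℂ) (σ : ℕ → ℤ) (η : ℝ) (A : Finset ℕ) : Measurable (gp ε σ η A) := by
  unfold gp fac
  refine Finset.measurable_prod _ fun n _ => ?_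
  refine (measurable_const.add (Measurable.div_const ?_ 4)).sub
    (Measurable.div_const (Measurable.const_mul ?_ _) 4)
  · exact ((meas_zpow _).const_mul _).add ((meas_zpow _).const_mul _)
  · exact ((meas_zpow _).const_mul _).add ((meas_zpow _).const_mul _)

theorem int_gp [IsProbabilityMeasure μ] (hμ : ∀ᵐ z ∂μ, ‖z‖ = 1) (hε : ∀ n, ‖ε n‖ ≤ 1)
    (h0 : 0 ≤ η) (h1 : η ≤ 1) (A : Finset ℕ) (m : ℤ) :
    Integrable (fun z => z ^ m * gp ε σ η A z) μ := by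
  refine Integrable.of_bound ((meas_zpow m).mul (meas_gp ε σ η A)).aestronglyMeasurable
    (2 ^ A.card) ?_
  filter_upwards [hμ] with z hz
  rw [norm_mul, norm_zpow, hz, one_zpow, one_mul]
  exact norm_gp_le hε h0 h1 A hz

theorem gI_empty (m : ℤ) : gI μ ε σ η ∅ m = ∫ z, z ^ m ∂μ := by
  simp [gI, gp]

theorem gI_insert [IsProbabilityMeasure μ] (hμ : ∀ᵐ z ∂μ, ‖z‖ = 1) (hε : ∀ n, ‖ε n‖ ≤ 1)
    (h0 : 0 ≤ η) (h1 : η ≤ 1) {A : Finset ℕ} {n : ℕ} (hn : n ∉ A) (m : ℤ) :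
    gI μ ε σ η (insert n A) m = gI μ ε σ η A m
      + ε n / 4 * (gI μ ε σ η A (m - n) - η * gI μ ε σ η A (m - n - σ n))
      + (starRingEnd ℂ) (ε n) / 4 * (gI μ ε σ η A (m + n) - η * gI μ ε σ η A (m + n + σ n)) := by
  have hI : ∀ k : ℤ, Integrable (fun z => z ^ k * gp ε σ η A z) μ := fun k => int_gp hμ hε h0 h1 A k
  have hF2 : Integrable (fun z => ε n / 4 * (z ^ (m - n) * gp ε σ η A z
      - η * (z ^ (m - n - σ n) * gp ε σ η A z))) μ :=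
    ((hI _).sub ((hI _).const_mul _)).const_mul _
  have hF3 : Integrable (fun z => (starRingEnd ℂ) (ε n) / 4 * (z ^ (m + n) * gp ε σ η A z
      - η * (z ^ (m + n + σ n) * gp ε σ η A z))) μ :=
    ((hI _).sub ((hI _).const_mul _)).const_mul _
  have e1 : gI μ ε σ η (insert n A) m = ∫ z, (z ^ m * gp ε σ η A z
      + ε n / 4 * (z ^ (m - n) * gp ε σ η A z - η * (z ^ (m - n - σ n) * gp ε σ η A z))
      + (starRingEnd ℂ) (ε n) / 4 * (z ^ (m + n) * gp ε σ η A z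
        - η * (z ^ (m + n + σ n) * gp ε σ η A z))) ∂μ := by
    unfold gI
    refine integral_congr_ae ?_
    filter_upwards [hμ] with z hz
    have hz0 : z ≠ 0 := by
      rintro rfl
      simp at hz
    have g1 : gp ε σ η (insert n A) z = fac ε σ η n z * gp ε σ η A z := by
      unfold gp
      rw [Finset.prod_insert hn]
    have e2 : z ^ (m - (n : ℤ)) = z ^ m * (z ^ (n : ℤ))⁻¹ := by
      rw [zpow_sub₀ hz0, div_eq_mul_inv]
    have e3 : z ^ (m - (n : ℤ) - σ n) = z ^ m * (z ^ (n : ℤ))⁻¹ * (z ^ (σ n))⁻¹ := by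
      rw [zpow_sub₀ hz0, e2, div_eq_mul_inv]
    have e4 : z ^ (m + (n : ℤ)) = z ^ m * z ^ (n : ℤ) := zpow_add₀ hz0 _ _
    have e5 : z ^ (m + (n : ℤ) + σ n) = z ^ m * z ^ (n : ℤ) * z ^ (σ n) := by
      rw [zpow_add₀ hz0, e4]
    have e6 : z ^ (-((n : ℤ) + σ n)) = (z ^ (n : ℤ))⁻¹ * (z ^ (σ n))⁻¹ := by
      rw [zpow_neg, zpow_add₀ hz0, mul_inv]
    have e7 : z ^ ((n : ℤ) + σ n) = z ^ (n : ℤ) * z ^ (σ n) := zpow_add₀ hz0 _ _
    have e8 : z ^ (-(n : ℤ)) = (z ^ (n : ℤ))⁻¹ := zpow_neg _ _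
    rw [g1, e2, e3, e4, e5]
    unfold fac
    rw [e6, e7, e8]
    ring
  have hF1 : Integrable (fun z => z ^ m * gp ε σ η A z
      + ε n / 4 * (z ^ (m - n) * gp ε σ η A z - η * (z ^ (m - n - σ n) * gp ε σ η A z))) μ :=
    (hI m).add hF2
  rw [e1, integral_add hF1 hF3, integral_add (hI m) hF2, integral_const_mul,
    integral_const_mul, integral_sub (hI _) ((hI _).const_mul _),
    integral_sub (hI _) ((hI _).const_mul _), integral_const_mul, integral_const_mul]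
  rfl

theorem gI_far [IsProbabilityMeasure μ] (hμ : ∀ᵐ z ∂μ, ‖z‖ = 1) {C : ℝ} (hC : 0 ≤ C)
    (hd : Dec μ C 1) (hε : ∀ n, ‖ε n‖ ≤ 1) (h0 : 0 ≤ η) (h1 : η ≤ 1) {D : ℝ} (hD : 0 < D)
    (A : Finset ℕ) : ∀ m : ℤ, D + ∑ n ∈ A, wt σ n ≤ |(m : ℝ)| →
      ‖gI μ ε σ η A m‖ ≤ 2 ^ A.card * (C / D) := by
  induction A using Finset.induction_on with
  | empty =>
    intro m hm
    rw [gI_empty]
    have h2 := Dec.int hμ one_pos hC hd hD (m := m) (by simpa using hm)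
    rw [Real.rpow_neg_one, ← div_eq_mul_inv] at h2
    simpa using h2
  | insert n A hn ih =>
    intro m hm
    rw [Finset.sum_insert hn] at hm
    rw [gI_insert hμ hε h0 h1 hn, Finset.card_insert_of_notMem hn, pow_succ]
    have hn0 : (0 : ℝ) ≤ n := Nat.cast_nonneg n
    have hw : wt σ n = (n : ℝ) + |(σ n : ℝ)| := rfl
    have hs0 : 0 ≤ |(σ n : ℝ)| := abs_nonneg _
    have key : ∀ k : ℤ, |(k : ℝ)| ≤ wt σ n → ‖gI μ ε σ η A (m - k)‖ ≤ 2 ^ A.card * (C / D) := by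
      intro k hk
      apply ih
      push_cast
      have := abs_sub_abs_le_abs_sub (m : ℝ) (k : ℝ)
      linarith
    have k0 := key 0 (by rw [hw]; simp; positivity)
    have k1 := key n (by rw [hw]; simp)
    have k2 := key (n + σ n) (by
      rw [hw]
      push_cast
      refine (abs_add_le _ _).trans ?_
      rw [abs_of_nonneg hn0])
    have k3 := key (-n) (by rw [hw]; push_cast; rw [abs_neg, abs_of_nonneg hn0]; linarith)
    have k4 := key (-(n + σ n)) (by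
      rw [hw]
      push_cast
      rw [abs_neg]
      refine (abs_add_le _ _).trans ?_
      rw [abs_of_nonneg hn0])
    rw [sub_zero] at k0
    rw [← sub_sub] at k2
    rw [sub_neg_eq_add] at k3
    rw [sub_neg_eq_add, ← add_assoc] at k4
    set X := 2 ^ A.card * (C / D) with hX
    have hX0 : 0 ≤ X := (norm_nonneg _).trans k0
    have h4 : ‖ε n / 4‖ ≤ 1 / 4 := by
      rw [norm_div]
      have : ‖(4 : ℂ)‖ = 4 := by simp
      rw [this]
      have := hε n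
      linarith
    have h5 : ‖(starRingEnd ℂ) (ε n) / 4‖ ≤ 1 / 4 := by
      rw [norm_div, RCLike.norm_conj]
      have : ‖(4 : ℂ)‖ = 4 := by simp
      rw [this]
      have := hε n
      linarith
    have h6 : ∀ u v : ℂ, ‖u‖ ≤ X → ‖v‖ ≤ X → ‖u - η * v‖ ≤ 2 * X := by
      intro u v hu hv
      refine (norm_sub_le _ _).trans ?_
      rw [norm_mul, Complex.norm_real, Real.norm_of_nonneg h0]
      have h7 : η * ‖v‖ ≤ 1 * X := mul_le_mul h1 hv (norm_nonneg _) (by norm_num)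
      linarith
    have h7 := h6 _ _ k1 k2
    have h8 := h6 _ _ k3 k4
    have h9 : ‖ε n / 4 * (gI μ ε σ η A (m - n) - η * gI μ ε σ η A (m - n - σ n))‖ ≤ 1 / 4 * (2 * X) := by
      rw [norm_mul]
      exact mul_le_mul h4 h7 (norm_nonneg _) (by norm_num)
    have h10 : ‖(starRingEnd ℂ) (ε n) / 4 * (gI μ ε σ η A (m + n) - η * gI μ ε σ η A (m + n + σ n))‖ ≤
        1 / 4 * (2 * X) := by
      rw [norm_mul]
      exact mul_le_mul h5 h8 (norm_nonneg _) (by norm_num)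
    calc _ ≤ ‖gI μ ε σ η A m‖ + ‖ε n / 4 * (gI μ ε σ η A (m - n) - η * gI μ ε σ η A (m - n - σ n))‖ +
          ‖(starRingEnd ℂ) (ε n) / 4 * (gI μ ε σ η A (m + n) - η * gI μ ε σ η A (m + n + σ n))‖ := norm_add₃_le
      _ ≤ X + 1 / 4 * (2 * X) + 1 / 4 * (2 * X) := add_le_add (add_le_add k0 h9) h10
      _ = 2 ^ A.card * 2 * (C / D) := by rw [hX]; ring

theorem gI_neg (hμ : ∀ᵐ z ∂μ, ‖z‖ = 1) (hε : ∀ n, ‖ε n‖ ≤ 1) (h0 : 0 ≤ η) (h1 : η ≤ 1)
    (A : Finset ℕ) (m : ℤ) : gI μ ε σ η A (-m) = (starRingEnd ℂ) (gI μ ε σ η A m) := by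
  unfold gI
  rw [← integral_conj]
  refine integral_congr_ae ?_
  filter_upwards [hμ] with z hz
  obtain ⟨t, -, ht⟩ := gp_nonneg (σ := σ) hε h0 h1 A hz
  have hz1 : (starRingEnd ℂ) z = z⁻¹ := by
    rw [Complex.inv_def, Complex.normSq_eq_norm_sq, hz]; simp
  rw [map_mul, map_zpow₀, hz1, ht, Complex.conj_ofReal, zpow_neg, inv_zpow]

theorem int_gp_norm (hμ : ∀ᵐ z ∂μ, ‖z‖ = 1) (hε : ∀ n, ‖ε n‖ ≤ 1) (h0 : 0 ≤ η) (h1 : η ≤ 1)
    (A : Finset ℕ) : ∫ z, ‖gp ε σ η A z‖ ∂μ = ‖gI μ ε σ η A 0‖ := by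
  have h2 : gI μ ε σ η A 0 = ((∫ z, ‖gp ε σ η A z‖ ∂μ : ℝ) : ℂ) := by
    unfold gI
    rw [← integral_complex_ofReal]
    refine integral_congr_ae ?_
    filter_upwards [hμ] with z hz
    obtain ⟨t, ht0, ht⟩ := gp_nonneg (σ := σ) hε h0 h1 A hz
    simp [ht, abs_of_nonneg ht0]
  rw [h2, Complex.norm_real, Real.norm_of_nonneg (integral_nonneg fun z => norm_nonneg _)]

end Forcing.CX
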