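import Pool.Agent.Lib.MP_c80ac4_an.CX.GA

/-!
# Row GB: compensated Riesz products, main estimate (adaptation of RieszB.lean)

Induction on the maximum (`Finset.induction_on_max`), `A = insert n B`: then
`A.filter (· < n) = B`, so `Sep` gives `∑ k ∈ B, wt σ k ≤ Δ n` and `C * 4^|B| ≤ κ * Δ n`, hence
`2^|B| * (C / Δ n) ≤ κ / 2^|B|`. By `gI_far` with `D = Δ n`: `‖gI B m'‖ ≤ κ / 2^|B|` as soon as
`|m'| ≥ 2 Δ n`. (`Sep` passes to `B`: `B.filter (· < k) = A.filter (· < k)` for `k ∈ B`.)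
Zero: `‖gI A 0 - 1‖ ≤ κ (2 - 2 / 2^|A|)` by induction with `gI_insert`: the four new terms are at
`±n`, `±(n + σ n)`, of modulus `≥ n / 2 ≥ 2 Δ n`, together at most `4 * (1/4) * κ / 2^|B|`.
Main: prove `‖gI A m - (if m ∈ A then ε m / 4 else 0)‖ ≤ κ (1 + 2 (2 - 2 / 2^|A|))`. For `n ≠ m` the
four new terms are far by `h1` and `|m + n|, |m + n + σ n| ≥ n / 2 ≥ 2 Δ n`. For `n = m` one term is
`ε m / 4 * gI B 0` (zero lemma), the term `gI B (-σ m)` is far if `η ≠ 0` by `h2`, `gI B m` is far.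
-/

namespace Forcing.CX

open Complex Metric Set MeasureTheory Filter Topology Forcing.RZ Forcing.UN

variable {μ : Measure ℂ} [IsProbabilityMeasure μ] {ε : ℕ → ℂ} {σ : ℕ → ℤ} {η : ℝ} {Δ : ℕ → ℝ}
  {C κ : ℝ}

private lemma gb_sub {n : ℕ} {B : Finset ℕ} (hb : ∀ x ∈ B, x < n)
    (hA : Sep σ Δ C κ (insert n B)) : Sep σ Δ C κ B := by
  have key : ∀ k ∈ B, (insert n B).filter (· < k) = B.filter (· < k) := by
    intro k hk
    rw [Finset.filter_insert, if_neg (not_lt.mpr (hb k hk).le)]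
  refine ⟨fun k hk => hA.pos k (Finset.mem_insert_of_mem hk),
    fun k hk => hA.le k (Finset.mem_insert_of_mem hk),
    fun k hk => hA.sg k (Finset.mem_insert_of_mem hk), fun k hk => ?_, fun k hk => ?_⟩
  · rw [← key k hk]
    exact hA.sum k (Finset.mem_insert_of_mem hk)
  · rw [← key k hk]
    exact hA.dec k (Finset.mem_insert_of_mem hk)

private lemma gb_top {n : ℕ} {B : Finset ℕ} (hb : ∀ x ∈ B, x < n) :
    (insert n B).filter (· < n) = B := by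
  rw [Finset.filter_insert, if_neg (lt_irrefl n), Finset.filter_true_of_mem hb]

private lemma gb_far (hμ : ∀ᵐ z ∂μ, ‖z‖ = 1) (hC : 0 ≤ C) (hd : Dec μ C 1)
    (hε : ∀ n, ‖ε n‖ ≤ 1) (h0 : 0 ≤ η) (h1 : η ≤ 1) {n : ℕ} {B : Finset ℕ}
    (hb : ∀ x ∈ B, x < n) (hA : Sep σ Δ C κ (insert n B)) (j : ℤ)
    (hj : 2 * Δ n ≤ |(j : ℝ)|) : ‖gI μ ε σ η B j‖ ≤ κ / 2 ^ B.card := by
  have hn := Finset.mem_insert_self n B
  have hp := hA.pos n hn
  have hs := hA.sum n hn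
  have hq := hA.dec n hn
  rw [gb_top hb] at hs hq
  refine (gI_far hμ hC hd hε h0 h1 hp B j (by linarith)).trans ?_
  have h4 : (4 : ℝ) ^ B.card = 2 ^ B.card * 2 ^ B.card := by
    rw [← mul_pow]; norm_num
  rw [h4] at hq
  rw [le_div_iff₀ (by positivity)]
  calc 2 ^ B.card * (C / Δ n) * 2 ^ B.card = C * (2 ^ B.card * 2 ^ B.card) / Δ n := by ring
    _ ≤ κ := by rw [div_le_iff₀ hp]; exact hq

omit [IsProbabilityMeasure μ] in
private lemma gb_quarter {η : ℝ} {a x y : ℂ} {X Y : ℝ} (ha : ‖a‖ ≤ 1) (h0 : 0 ≤ η) (h1 : η ≤ 1)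
    (hx : ‖x‖ ≤ X) (hy : η = 0 ∨ ‖y‖ ≤ Y) (hY : 0 ≤ Y) :
    ‖a / 4 * (x - η * y)‖ ≤ (X + Y) / 4 := by
  have h3 : ‖(η : ℂ) * y‖ ≤ Y := by
    rcases hy with hy | hy
    · rw [hy]
      simpa using hY
    · rw [norm_mul, Complex.norm_of_nonneg h0]
      calc η * ‖y‖ ≤ 1 * Y := by gcongr
        _ = Y := one_mul Y
  have h4 : ‖x - η * y‖ ≤ X + Y := (norm_sub_le _ _).trans (add_le_add hx h3)
  have h5 : ‖a / 4‖ ≤ 1 / 4 := by
    rw [norm_div]
    have : ‖(4 : ℂ)‖ = 4 := by simp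
    rw [this]
    linarith
  rw [norm_mul]
  calc ‖a / 4‖ * ‖x - η * y‖ ≤ 1 / 4 * (X + Y) := by gcongr
    _ = (X + Y) / 4 := by ring

private lemma gb_tri (a b s t : ℂ) : ‖a + s + t - b‖ ≤ ‖a - b‖ + ‖s‖ + ‖t‖ := by
  have h : a + s + t - b = (a - b) + s + t := by ring
  rw [h]
  exact norm_add₃_le

private lemma gb_step (k : ℕ) (κ : ℝ) :
    κ * (2 - 2 / 2 ^ (k + 1)) = κ * (2 - 2 / 2 ^ k) + κ / 2 ^ k := by
  rw [pow_succ]
  field_simp
  ring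

private lemma gb_zero (hμ : ∀ᵐ z ∂μ, ‖z‖ = 1) (hC : 0 ≤ C) (hd : Dec μ C 1)
    (hε : ∀ n, ‖ε n‖ ≤ 1) (h0 : 0 ≤ η) (h1 : η ≤ 1) (A : Finset ℕ) (hA : Sep σ Δ C κ A) :
    ‖gI μ ε σ η A 0 - 1‖ ≤ κ * (2 - 2 / 2 ^ A.card) := by
  induction A using Finset.induction_on_max with
  | empty => simp [gI_empty]
  | insert n B hb ih =>
    have hbB : n ∉ B := fun h => lt_irrefl _ (hb n h)
    have hn := Finset.mem_insert_self n B
    have ih' := ih (gb_sub hb hA)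
    have hfar := gb_far hμ hC hd hε h0 h1 hb hA
    have hp := hA.pos n hn
    have hl := hA.le n hn
    obtain ⟨hs1, hs2⟩ := abs_le.mp (hA.sg n hn)
    have f1 := hfar (0 - n) (by rw [le_abs]; right; push_cast; linarith)
    have f2 := hfar (0 - n - σ n) (by rw [le_abs]; right; push_cast; linarith)
    have f3 := hfar (0 + n) (by rw [le_abs]; left; push_cast; linarith)
    have f4 := hfar (0 + n + σ n) (by rw [le_abs]; left; push_cast; linarith)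
    have hX0 := (norm_nonneg _).trans f1
    have hc : ‖(starRingEnd ℂ) (ε n)‖ ≤ 1 := by
      rw [RCLike.norm_conj]
      exact hε n
    have g1 := gb_quarter (hε n) h0 h1 f1 (Or.inr f2) hX0
    have g2 := gb_quarter hc h0 h1 f3 (Or.inr f4) hX0
    rw [gI_insert hμ hε h0 h1 hbB, Finset.card_insert_of_notMem hbB, gb_step]
    refine (gb_tri _ _ _ _).trans ?_
    linarith

private lemma gb_main (hμ : ∀ᵐ z ∂μ, ‖z‖ = 1) (hC : 0 ≤ C) (hκ : 0 ≤ κ) (hd : Dec μ C 1)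
    (hε : ∀ n, ‖ε n‖ ≤ 1) (h0 : 0 ≤ η) (h1 : η ≤ 1) {m : ℕ}
    (hm : ‖∫ z, z ^ m ∂μ‖ ≤ κ) (A : Finset ℕ) (hA : Sep σ Δ C κ A)
    (hmA : ∀ n ∈ A, n ≠ m → 2 * Δ n ≤ |(m : ℝ) - n| ∧ (η = 0 ∨ 2 * Δ n ≤ |(m : ℝ) - n - σ n|))
    (hmm : m ∈ A → η = 0 ∨ 2 * Δ m ≤ |(σ m : ℝ)|) :
    ‖gI μ ε σ η A m - (if m ∈ A then ε m / 4 else 0)‖ ≤ κ * (1 + 2 * (2 - 2 / 2 ^ A.card)) := by
  induction A using Finset.induction_on_max with
  | empty =>
    simp only [Finset.notMem_empty, if_false, sub_zero, gI_empty, Finset.card_empty, pow_zero,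
      zpow_natCast]
    refine hm.trans ?_
    linarith
  | insert n B hb ih =>
    have hbB : n ∉ B := fun h => lt_irrefl _ (hb n h)
    have hn := Finset.mem_insert_self n B
    have hfar := gb_far hμ hC hd hε h0 h1 hb hA
    have hp := hA.pos n hn
    have hl := hA.le n hn
    obtain ⟨hs1, hs2⟩ := abs_le.mp (hA.sg n hn)
    have hm0 : (0 : ℝ) ≤ m := Nat.cast_nonneg m
    have f3 := hfar (m + n) (by rw [le_abs]; left; push_cast; linarith)
    have f4 := hfar (m + n + σ n) (by rw [le_abs]; left; push_cast; linarith)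
    have hX0 := (norm_nonneg _).trans f3
    have hc : ‖(starRingEnd ℂ) (ε n)‖ ≤ 1 := by
      rw [RCLike.norm_conj]
      exact hε n
    have g2 := gb_quarter hc h0 h1 f3 (Or.inr f4) hX0
    have h7 : κ * (1 + 2 * (2 - 2 / 2 ^ (B.card + 1))) =
        κ + 2 * (κ * (2 - 2 / 2 ^ B.card) + κ / 2 ^ B.card) := by
      rw [← gb_step]
      ring
    have h8 : κ * (1 + 2 * (2 - 2 / 2 ^ B.card)) = κ + 2 * (κ * (2 - 2 / 2 ^ B.card)) := by ring
    have hz := gb_zero hμ hC hd hε h0 h1 B (gb_sub hb hA)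
    have hz0 := (norm_nonneg _).trans hz
    rw [gI_insert hμ hε h0 h1 hbB, Finset.card_insert_of_notMem hbB, h7]
    by_cases hmn : n = m
    · subst hmn
      rw [if_pos hn]
      have f0 := hfar n (by rw [le_abs]; left; push_cast; linarith)
      have e0 : ((n : ℤ) - (n : ℤ)) = 0 := sub_self _
      have f5 : η = 0 ∨ ‖gI μ ε σ η B (0 - σ n)‖ ≤ κ / 2 ^ B.card := by
        refine (hmm hn).imp_right fun h => hfar _ ?_
        push_cast
        rw [zero_sub, abs_neg]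
        exact h
      have g1 := gb_quarter (hε n) h0 h1 hz f5 hX0
      rw [e0]
      have e1 : gI μ ε σ η B n + ε n / 4 * (gI μ ε σ η B 0 - η * gI μ ε σ η B (0 - σ n))
          + (starRingEnd ℂ) (ε n) / 4 * (gI μ ε σ η B (n + n) - η * gI μ ε σ η B (n + n + σ n))
          - ε n / 4
          = gI μ ε σ η B n
          + ε n / 4 * ((gI μ ε σ η B 0 - 1) - η * gI μ ε σ η B (0 - σ n))
          + (starRingEnd ℂ) (ε n) / 4 *
            (gI μ ε σ η B (n + n) - η * gI μ ε σ η B (n + n + σ n)) - 0 := by ring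
      rw [e1]
      refine (gb_tri _ _ _ _).trans ?_
      rw [sub_zero]
      linarith
    · have ih' := ih (gb_sub hb hA) (fun k hk => hmA k (Finset.mem_insert_of_mem hk))
        (fun hk => hmm (Finset.mem_insert_of_mem hk))
      obtain ⟨q1, q2⟩ := hmA n hn hmn
      have f1 := hfar (m - n) (by push_cast; exact q1)
      have f2 : η = 0 ∨ ‖gI μ ε σ η B (m - n - σ n)‖ ≤ κ / 2 ^ B.card :=
        q2.imp_right fun h => hfar _ (by push_cast; exact h)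
      have g1 := gb_quarter (hε n) h0 h1 f1 f2 hX0
      have hmem : (m ∈ insert n B) ↔ m ∈ B := by
        rw [Finset.mem_insert]
        constructor
        · rintro (h | h)
          · exact absurd h.symm hmn
          · exact h
        · exact Or.inr
      simp only [hmem]
      refine (gb_tri _ _ _ _).trans ?_
      rw [h8] at ih'
      linarith

private lemma gb_le (k : ℕ) (hκ : 0 ≤ κ) : κ * (2 - 2 / 2 ^ k) ≤ 2 * κ := by
  have h : (0 : ℝ) ≤ 2 / 2 ^ k := by positivity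
  nlinarith [mul_nonneg hκ h]

theorem gI_zero (hμ : ∀ᵐ z ∂μ, ‖z‖ = 1) (hC : 0 ≤ C) (hκ : 0 ≤ κ) (hd : Dec μ C 1)
    (hε : ∀ n, ‖ε n‖ ≤ 1) (h0 : 0 ≤ η) (h1 : η ≤ 1) {A : Finset ℕ} (hA : Sep σ Δ C κ A) :
    ‖gI μ ε σ η A 0 - 1‖ ≤ 2 * κ := by
  exact (gb_zero hμ hC hd hε h0 h1 A hA).trans (gb_le _ hκ)

theorem gI_main (hμ : ∀ᵐ z ∂μ, ‖z‖ = 1) (hC : 0 ≤ C) (hκ : 0 ≤ κ) (hd : Dec μ C 1)
    (hε : ∀ n, ‖ε n‖ ≤ 1) (h0 : 0 ≤ η) (h1 : η ≤ 1) {A : Finset ℕ} (hA : Sep σ Δ C κ A) {m : ℕ}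
    (hm : ‖∫ z, z ^ m ∂μ‖ ≤ κ)
    (hmA : ∀ n ∈ A, n ≠ m → 2 * Δ n ≤ |(m : ℝ) - n| ∧ (η = 0 ∨ 2 * Δ n ≤ |(m : ℝ) - n - σ n|))
    (hmm : m ∈ A → η = 0 ∨ 2 * Δ m ≤ |(σ m : ℝ)|) :
    ‖gI μ ε σ η A m - (if m ∈ A then ε m / 4 else 0)‖ ≤ 5 * κ := by
  refine (gb_main hμ hC hκ hd hε h0 h1 hm A hA hmA hmm).trans ?_
  have h := gb_le A.card hκ
  have e : κ * (1 + 2 * (2 - 2 / 2 ^ A.card)) = κ + 2 * (κ * (2 - 2 / 2 ^ A.card)) := by ring
  rw [e]
  linarith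

end Forcing.CX
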