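import Mathlib

/-!
# Row MAP: a continuous map into the hyperspace (only Mathlib)

PROOF. For `x : ℕ → Bool`, `k : ℕ` put `A x k = {z | ∀ j < k, x j = true → z ∈ C j}` (closed, so
compact) and `A∞ x = {z | ∀ j, x j = true → z ∈ C j}`. Choose for every closed set `S` and `k` a
finite `net S k ⊆ S` with every point of `S` at distance `< 1 / (k + 1)` of `net S k`
(`IsCompact.finite_cover_balls` or `TotallyBounded`), a function of `S`, `k` only. Fix a point `p`.
Put `R x k = net (A x k) k` and `H x k = {p} ∪ (⋃ i ≤ k, R x i) ∪ A x k`,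
`K x = {p} ∪ (⋃ i, R x i) ∪ A∞ x`. `K x = ⋂ k, H x k` (a point of all `H x k` outside
`{p} ∪ ⋃ R x i` is in all `A x k`, and `R x i ⊆ A x i ⊆ A x k` for `i ≥ k`), every `H x k` is
closed, so `K x` is compact and nonempty. `K x \ A∞ x ⊆ {p} ∪ ⋃ i, R x i` is countable.
CONTINUITY: if `x`, `y` agree below `k` then `A x i = A y i` and `R x i = R y i` for `i ≤ k`, so
`K x ⊆ H x k = H y k` and every point of `H y k` is at distance `≤ 1 / (k + 1)` of
`{p} ∪ ⋃ i ≤ k, R y i ⊆ K y`; hence `hausdorffDist (K x) (K y) ≤ 1 / (k + 1)`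
(`hausdorffDist_le_of_mem_dist`), and `dist` on `NonemptyCompacts` is `hausdorffDist` (by `rfl`,
see `Forcing.HY.dense_roots` in HY/Main.lean). The set of `y` which agree with `x` below `k` is a
neighbourhood of `x`.
-/

namespace Forcing.CX

open TopologicalSpace Metric Filter Topology

theorem exists_map {Z : Type*} [MetricSpace Z] [CompactSpace Z] [Nonempty Z] (C : ℕ → Set Z)
    (hC : ∀ j, IsClosed (C j)) :
    ∃ Φ : (ℕ → Bool) → NonemptyCompacts Z, Continuous Φ ∧ ∀ x,
      {z | ∀ j, x j = true → z ∈ C j} ⊆ (Φ x : Set Z) ∧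
      ((Φ x : Set Z) \ {z | ∀ j, x j = true → z ∈ C j}).Countable := by
  classical
  have hnet : ∀ (S : Set Z) (k : ℕ), ∃ t : Set Z, t ⊆ S ∧ t.Finite ∧
      ∀ z ∈ S, ∃ w ∈ t, dist z w < 1 / ((k : ℝ) + 1) := by
    intro S k
    obtain ⟨t, h1, h2, h3⟩ := Metric.finite_approx_of_totallyBounded
      (isCompact_univ.totallyBounded.subset (Set.subset_univ S)) (1 / ((k : ℝ) + 1)) (by positivity)
    refine ⟨t, h1, h2, fun z hz => ?_⟩
    have h4 := h3 hz
    simp only [Set.mem_iUnion, mem_ball] at h4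
    obtain ⟨w, hw, hd⟩ := h4
    exact ⟨w, hw, hd⟩
  choose net hns hnf hnd using hnet
  obtain ⟨p⟩ := (inferInstance : Nonempty Z)
  let A : (ℕ → Bool) → ℕ → Set Z := fun x k => {z | ∀ j < k, x j = true → z ∈ C j}
  let Ai : (ℕ → Bool) → Set Z := fun x => {z | ∀ j, x j = true → z ∈ C j}
  let H : (ℕ → Bool) → ℕ → Set Z := fun x k => ({p} ∪ ⋃ i ∈ Set.Iic k, net (A x i) i) ∪ A x k
  let K : (ℕ → Bool) → Set Z := fun x => ({p} ∪ ⋃ i, net (A x i) i) ∪ Ai x
  have hAc : ∀ x k, IsClosed (A x k) := by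
    intro x k
    have : A x k = ⋂ j, ⋂ (_ : j < k), ⋂ (_ : x j = true), C j := by
      ext z
      simp [A]
    rw [this]
    exact isClosed_iInter fun j => isClosed_iInter fun _ => isClosed_iInter fun _ => hC j
  have hAm : ∀ x k l, k ≤ l → A x l ⊆ A x k := by
    intro x k l hkl z hz j hj
    exact hz j (lt_of_lt_of_le hj hkl)
  have hAi : ∀ x k, Ai x ⊆ A x k := fun x k z hz j _ => hz j
  have hAe : ∀ (x y : ℕ → Bool) (k : ℕ), (∀ j < k, x j = y j) → ∀ i ≤ k, A x i = A y i := by
    intro x y k h i hi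
    ext z
    constructor
    · intro hz j hj hy
      exact hz j hj ((h j (lt_of_lt_of_le hj hi)).trans hy)
    · intro hz j hj hx
      exact hz j hj ((h j (lt_of_lt_of_le hj hi)).symm.trans hx)
  have hHc : ∀ x k, IsClosed (H x k) := by
    intro x k
    refine ((Set.finite_singleton p).isClosed.union ?_).union (hAc x k)
    exact (Set.finite_Iic k).isClosed_biUnion fun i _ => (hnf (A x i) i).isClosed
  have hKH : ∀ x, K x = ⋂ k, H x k := by
    intro x
    ext z
    simp only [Set.mem_iInter]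
    constructor
    · intro hz k
      rcases hz with (hz | hz) | hz
      · exact Or.inl (Or.inl hz)
      · obtain ⟨i, hi⟩ := Set.mem_iUnion.1 hz
        rcases le_or_gt i k with hik | hik
        · exact Or.inl (Or.inr (Set.mem_biUnion (Set.mem_Iic.2 hik) hi))
        · exact Or.inr (hAm x k i hik.le (hns _ _ hi))
      · exact Or.inr (hAi x k hz)
    · intro hz
      by_contra hne
      apply hne
      refine Or.inr fun j hj => ?_
      rcases hz (j + 1) with (h | h) | h
      · have h5 : z ∈ K x := Or.inl (Or.inl h)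
        exact absurd h5 hne
      · obtain ⟨i, _, hi⟩ := Set.mem_iUnion₂.1 h
        have h5 : z ∈ K x := Or.inl (Or.inr (Set.mem_iUnion.2 ⟨i, hi⟩))
        exact absurd h5 hne
      · exact h j (Nat.lt_succ_self j) hj
  have hKc : ∀ x, IsCompact (K x) := fun x => by
    rw [hKH x]
    exact (isClosed_iInter fun k => hHc x k).isCompact
  have hpK : ∀ x, p ∈ K x := fun x => Or.inl (Or.inl rfl)
  have hdist : ∀ (x y : ℕ → Bool) (k : ℕ), (∀ j < k, x j = y j) → ∀ z ∈ K x, ∃ w ∈ K y,
      dist z w ≤ 1 / ((k : ℝ) + 1) := by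
    intro x y k h z hz
    have hk : (0 : ℝ) ≤ 1 / ((k : ℝ) + 1) := by positivity
    rw [hKH x, Set.mem_iInter] at hz
    rcases hz k with (hz | hz) | hz
    · refine ⟨p, hpK y, ?_⟩
      rw [Set.mem_singleton_iff.1 hz, dist_self]
      exact hk
    · obtain ⟨i, hik, hi⟩ := Set.mem_iUnion₂.1 hz
      rw [hAe x y k h i hik] at hi
      exact ⟨z, Or.inl (Or.inr (Set.mem_iUnion.2 ⟨i, hi⟩)), by rw [dist_self]; exact hk⟩
    · rw [hAe x y k h k le_rfl] at hz
      obtain ⟨w, hw, hd⟩ := hnd (A y k) k z hz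
      exact ⟨w, Or.inl (Or.inr (Set.mem_iUnion.2 ⟨k, hw⟩)), hd.le⟩
  refine ⟨fun x => ⟨⟨K x, hKc x⟩, ⟨p, hpK x⟩⟩, ?_, fun x => ⟨?_, ?_⟩⟩
  · rw [continuous_iff_continuousAt]
    intro x
    rw [ContinuousAt, Metric.tendsto_nhds]
    intro ε hε
    obtain ⟨k, hk⟩ := exists_nat_one_div_lt hε
    have hev : ∀ᶠ y in 𝓝 x, ∀ j ∈ Set.Iio k, y j = x j := by
      rw [Filter.eventually_all_finite (Set.finite_Iio k)]
      intro j _
      have h1 : Tendsto (fun y : ℕ → Bool => y j) (𝓝 x) (𝓝 (x j)) := (continuous_apply j).tendsto x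
      exact h1 ((isOpen_discrete {x j}).mem_nhds rfl)
    filter_upwards [hev] with y hy
    refine lt_of_le_of_lt ?_ hk
    exact hausdorffDist_le_of_mem_dist (by positivity)
      (hdist y x k fun j hj => hy j hj) (hdist x y k fun j hj => (hy j hj).symm)
  · intro z hz
    exact Or.inr hz
  · have hc : ({p} ∪ ⋃ i, net (A x i) i : Set Z).Countable :=
      (Set.countable_singleton p).union (Set.countable_iUnion fun i => (hnf (A x i) i).countable)
    refine hc.mono ?_
    intro z hz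
    obtain ⟨h1, h2⟩ := hz
    rcases h1 with h1 | h1
    · exact h1
    · exact absurd h1 h2

end Forcing.CX
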