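import Pool.Agent.Lib.MP_c80ac4_an.CX.Ari

/-!
# Row NOT: an infinite row destroys the Sidon inequalities

PROOF (as `Forcing.UN.not_sidonOn_E` in UN/Sets.lean). `SidonOn` with `q = 1 + 1 / 16 ^ (m+1)` gives
`N`, `C`. For `j ∈ X` with `row j = m` take the polynomial `P j`: its frequencies are `vv k`,
`vv k + dd k` for `k = Nat.pair j l`, `l < len j`, all coefficients are `1 / (2 * len j)`, the sum of
the coefficients is 1, and `|P j| ≤ (1/2)^j` on `AX X`. The frequencies form a `LacSet q N` if
`j ≥ N`: `vv k + dd k = q * vv k` (`vv_eq`), `vv l + dd l ≤ 2 vv l ≤ dd k / 2000 ≤ vv k / 2` for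
`l < k`; and `vv k ≥ k ≥ j` (`Nat.left_le_pair`). So `1 ≤ C * (1/2)^j` for infinitely many `j`.
The map `(l, i) ↦ vv (Nat.pair j l) + i * dd (Nat.pair j l)`, `i ∈ {0, 1}`, is injective; write the
polynomial as a sum over the union of two images.
-/

namespace Forcing.CX

open Complex Metric Set Filter Topology

/-- the frequencies of `P j` -/
private def nsf (j : ℕ) (x : ℕ × ℕ) : ℕ := vv (Nat.pair j x.1) + x.2 * dd (Nat.pair j x.1)

private theorem ns_up (j l i : ℕ) (hi : i < 2) : nsf j (l, i) ≤ 2 * vv (Nat.pair j l) := by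
  have h1 := dd_le (Nat.pair j l)
  have h2 : i * dd (Nat.pair j l) ≤ 1 * dd (Nat.pair j l) := Nat.mul_le_mul_right _ (by omega)
  unfold nsf
  simp only
  omega

private theorem ns_lt (j l l' i i' : ℕ) (hi : i < 2) (h : l < l') : 4 * nsf j (l, i) ≤ nsf j (l', i') := by
  have h1 := ns_up j l i hi
  have h2 := vv_le (Nat.pair_lt_pair_right j h)
  have h3 := dd_le (Nat.pair j l')
  have h4 : vv (Nat.pair j l') ≤ nsf j (l', i') := Nat.le_add_right _ _
  omega

private theorem ns_pos (j l i : ℕ) : 0 < nsf j (l, i) := by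
  have h1 := dd_pos (Nat.pair j l)
  have h2 := dd_le (Nat.pair j l)
  have h4 : vv (Nat.pair j l) ≤ nsf j (l, i) := Nat.le_add_right _ _
  omega

private theorem ns_ge (j l i : ℕ) : j ≤ nsf j (l, i) := by
  have h1 : j ≤ Nat.pair j l := Nat.left_le_pair j l
  have h2 : Nat.pair j l ≤ vv (Nat.pair j l) := by
    unfold vv
    set k := Nat.pair j l with hk
    have h3 : (k + 2) ^ 2 + row (gad k) + 1 < 16 ^ ((k + 2) ^ 2 + row (gad k) + 1) := Nat.lt_pow_self (by norm_num)
    have h4 : k ≤ (k + 2) ^ 2 := by nlinarith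
    omega
  have h4 : vv (Nat.pair j l) ≤ nsf j (l, i) := Nat.le_add_right _ _
  omega

private theorem ns_inj (j : ℕ) : Set.InjOn (nsf j) ((Finset.range (len j) ×ˢ Finset.range 2 : Finset (ℕ × ℕ)) : Set (ℕ × ℕ)) := by
  rintro ⟨l, i⟩ hx ⟨l', i'⟩ hy hxy
  simp only [Finset.coe_product, Finset.coe_range, Set.mem_prod, Set.mem_Iio] at hx hy
  rcases lt_trichotomy l l' with h | h | h
  · have h1 := ns_lt j l l' i i' hx.2 h
    have h2 := ns_pos j l i
    omega
  · subst h
    have h1 : vv (Nat.pair j l) + i * dd (Nat.pair j l) = vv (Nat.pair j l) + i' * dd (Nat.pair j l) := hxy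
    have h2 : i * dd (Nat.pair j l) = i' * dd (Nat.pair j l) := by omega
    have h3 := Nat.eq_of_mul_eq_mul_right (dd_pos _) h2
    rw [h3]
  · have h1 := ns_lt j l' l i' i hy.2 h
    have h2 := ns_pos j l' i'
    omega

theorem not_sidonOn_AX {X : Set ℕ} {m : ℕ} (h : {j | j ∈ X ∧ row j = m}.Infinite) :
    ¬ SidonOn (AX X) := by
  intro hS
  obtain ⟨N, C, hNC⟩ := hS (1 + 1 / 16 ^ (m + 1)) (by
    have : (0 : ℝ) < 1 / 16 ^ (m + 1) := by positivity
    linarith)
  have hbound : ∀ j : ℕ, j ∈ X → row j = m → N ≤ j → (1 : ℝ) ≤ C * (1 / 2) ^ j := by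
    intro j hjX hjm hj
    set s : Finset ℕ := (Finset.range (len j) ×ˢ Finset.range 2).image (nsf j) with hs
    have hlen : 0 < len j := by
      unfold len
      positivity
    have hlac : LacSet (1 + 1 / 16 ^ (m + 1)) N (s : Set ℕ) := by
      constructor
      · intro n hn
        rw [hs, Finset.mem_coe, Finset.mem_image] at hn
        obtain ⟨⟨l, i⟩, -, rfl⟩ := hn
        exact ⟨ns_pos j l i, hj.trans (ns_ge j l i)⟩
      · intro n hn n' hn' hnn
        rw [hs, Finset.mem_coe, Finset.mem_image] at hn hn'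
        obtain ⟨⟨l, i⟩, hx, rfl⟩ := hn
        obtain ⟨⟨l', i'⟩, hy, rfl⟩ := hn'
        rw [Finset.mem_product, Finset.mem_range, Finset.mem_range] at hx hy
        simp only at hx hy
        rcases lt_trichotomy l l' with h1 | h1 | h1
        · have h2 : (4 : ℝ) * nsf j (l, i) ≤ nsf j (l', i') := by exact_mod_cast ns_lt j l l' i i' hx.2 h1
          have h3 : (1 : ℝ) / 16 ^ (m + 1) ≤ 1 := by
            rw [div_le_one (by positivity)]
            exact one_le_pow₀ (by norm_num)
          have h4 : (0 : ℝ) ≤ nsf j (l, i) := Nat.cast_nonneg _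
          nlinarith
        · subst h1
          have h2 : vv (Nat.pair j l) + i * dd (Nat.pair j l) < vv (Nat.pair j l) + i' * dd (Nat.pair j l) := hnn
          have h3 : i < i' := by
            by_contra hc
            have := Nat.mul_le_mul_right (dd (Nat.pair j l)) (not_lt.1 hc)
            omega
          have hi : i = 0 := by omega
          have hi' : i' = 1 := by omega
          subst hi
          subst hi'
          have h4 : vv (Nat.pair j l) = 16 ^ (m + 1) * dd (Nat.pair j l) := by
            have e := vv_eq (Nat.pair j l)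
            have e2 : gad (Nat.pair j l) = j := by
              unfold gad
              rw [Nat.unpair_pair]
            rw [e2, hjm] at e
            exact e
          have h5 : (vv (Nat.pair j l) : ℝ) = 16 ^ (m + 1) * dd (Nat.pair j l) := by exact_mod_cast h4
          unfold nsf
          push_cast
          rw [zero_mul, add_zero, one_mul]
          have h6 : (1 : ℝ) / 16 ^ (m + 1) * vv (Nat.pair j l) = dd (Nat.pair j l) := by
            rw [h5]
            field_simp
          rw [add_mul, one_mul, h6]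
        · exfalso
          have h2 := ns_lt j l' l i' i hy.2 h1
          omega
    have hP : ∀ z : ℂ, ∑ n ∈ s, (1 / ((2 * len j : ℕ) : ℂ)) * z ^ n = P j z := by
      intro z
      rw [hs, Finset.sum_image (ns_inj j), Finset.sum_product, P, Finset.mul_sum]
      refine Finset.sum_congr rfl fun l _ => ?_
      rw [Finset.sum_range_succ, Finset.sum_range_succ, Finset.sum_range_zero, zero_add, pr, mul_add]
      unfold nsf
      simp only
      rw [zero_mul, add_zero, one_mul]
    have h1 := hNC s (fun _ => 1 / ((2 * len j : ℕ) : ℂ)) ((1 / 2) ^ j) hlac (by positivity) (fun z hz => by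
      rw [hP z]
      exact hz.2 j hjX)
    have hcard : s.card = 2 * len j := by
      rw [hs, Finset.card_image_of_injOn (ns_inj j), Finset.card_product, Finset.card_range, Finset.card_range, mul_comm]
    have h2 : ∑ n ∈ s, ‖(1 / ((2 * len j : ℕ) : ℂ))‖ = 1 := by
      rw [Finset.sum_const, hcard, nsmul_eq_mul, norm_div, norm_one, Complex.norm_natCast]
      have : ((2 * len j : ℕ) : ℝ) ≠ 0 := by
        have : 0 < 2 * len j := by omega
        positivity
      field_simp
    rw [h2] at h1
    exact h1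
  have hlim : Tendsto (fun j : ℕ => C * (1 / 2 : ℝ) ^ j) atTop (𝓝 0) := by
    have := (tendsto_pow_atTop_nhds_zero_of_lt_one (r := (1 / 2 : ℝ)) (by norm_num)
      (by norm_num)).const_mul C
    simpa using this
  have hev : ∀ᶠ j : ℕ in atTop, C * (1 / 2 : ℝ) ^ j < 1 := hlim.eventually (gt_mem_nhds one_pos)
  obtain ⟨j0, hj0⟩ := eventually_atTop.1 hev
  obtain ⟨j, ⟨hjX, hjm⟩, hj⟩ := h.exists_gt (max N j0)
  have h1 := hbound j hjX hjm ((le_max_left _ _).trans hj.le)
  have h2 := hj0 j ((le_max_right _ _).trans hj.le)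
  linarith

end Forcing.CX
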