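import Pool.Agent.Lib.MP_c80ac4_an.CX.Fin
import Pool.Agent.Lib.MP_c80ac4_an.HY.Main
import Pool.Agent.Lib.MP_c80ac4_an.Ctbl
import Pool.Agent.Lib.MP_c80ac4_an.CX.NotS
import Pool.Agent.Lib.MP_c80ac4_an.CX.Map
import Pool.Agent.Lib.MP_c80ac4_an.CX.Bai

/-! # The family of all boundary sets is not a countable union of `G_delta` sets -/

namespace Forcing.CX

open TopologicalSpace Metric Filter Topology

theorem AX_iff (X : Set ℕ) : SidonOn (AX X) ↔ ∀ m, {j | j ∈ X ∧ row j = m}.Finite := by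
  constructor
  · intro h m
    by_contra hm
    exact not_sidonOn_AX hm h
  · exact sidonOn_AX

theorem isClosed_AX (X : Set ℕ) : IsClosed (AX X) := by
  have h1 : AX X = {z | ‖z‖ = 1} ∩ ⋂ j ∈ X, {z | ‖P j z‖ ≤ (1 / 2 : ℝ) ^ j} := by
    ext z
    simp [AX]
  rw [h1]
  refine (isClosed_eq continuous_norm continuous_const).inter ?_
  exact isClosed_biInter fun j _ => isClosed_le (continuous_P j).norm continuous_const

theorem not_Gds : ¬ ∃ G : ℕ → ℕ → Set (NonemptyCompacts Circle), (∀ i j, IsOpen (G i j)) ∧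
    {K : NonemptyCompacts Circle | SidonOn (HY.im K)} = ⋃ i, ⋂ j, G i j := by
  obtain ⟨Φ, hΦ, h⟩ := exists_map (Z := Circle)
    (fun j => {z : Circle | ‖P j (z : ℂ)‖ ≤ (1 / 2 : ℝ) ^ j})
    (fun j => isClosed_le ((continuous_P j).norm.comp continuous_subtype_val) continuous_const)
  refine not_Gds_of_map _ Φ hΦ fun x => ?_
  obtain ⟨h1, h2⟩ := h x
  have hsub : AX {j | x j = true} ⊆ HY.im (Φ x) := by
    rintro z ⟨hz, hz1⟩
    exact ⟨⟨z, mem_sphere_zero_iff_norm.2 hz⟩, h1 fun j hj => hz1 j hj, rfl⟩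
  have hcl : IsClosed (HY.im (Φ x)) :=
    ((Φ x).isCompact.image (by fun_prop : Continuous fun z : Circle => (z : ℂ))).isClosed
  have hcount : (HY.im (Φ x) \ AX {j | x j = true}).Countable := by
    refine (h2.image (fun z : Circle => (z : ℂ))).mono ?_
    rintro _ ⟨⟨z, hz, rfl⟩, hz1⟩
    refine ⟨z, ⟨hz, fun hz2 => hz1 ⟨Circle.norm_coe z, fun j hj => hz2 j hj⟩⟩, rfl⟩
  have h3 : SidonOn (HY.im (Φ x)) ↔ SidonOn (AX {j | x j = true}) :=
    ⟨fun h4 q hq => sidonIneq_of_diff_countable (isClosed_AX _) hcl (HY.im_subset _) hsub hcount hq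
      (h4 q hq), fun h4 => h4.mono hsub⟩
  show SidonOn (HY.im (Φ x)) ↔ _
  rw [h3, AX_iff]
  rfl

end Forcing.CX
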