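import Pool.Agent.Lib.MP_c80ac4_an.CX.CM
import Pool.Agent.Lib.MP_c80ac4_an.CX.Ar2

/-!
# Row NC: the frequencies near a pair

`class_main X J` gives `C₀`; `N ≥ 1`, `N ≥ C₀ / κ` and `N` from `dd_large (4 * C₀ / κ)`.
It is applied with `Δ n = dd (f n) / 4`.
-/

namespace Forcing.CX

open Complex Metric Set MeasureTheory Filter Topology Forcing.RZ Forcing.UN

theorem near_class (X : Set ℕ) (J : ℕ) {q κ : ℝ} (hq : 1 < q) (hκ : 0 < κ) {r : ℕ}
    (hr : 8 ≤ (1 - 1 / q) * 16 ^ (r + 1)) :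
    ∃ N : ℕ, 1 ≤ N ∧ ∀ (s : Finset ℕ) (b : ℕ → ℂ) (M : ℝ), LacSet q N (s : Set ℕ) → 0 ≤ M →
      (∀ z ∈ AX X, ‖∑ n ∈ s, b n * z ^ n‖ ≤ M) → ∀ A ⊆ s, ∀ (f : ℕ → ℕ) (σ : ℕ → ℤ) (η : ℝ),
      Set.InjOn f (A : Set ℕ) → (∀ n ∈ A, Near (f n) n) → (∀ n ∈ A, r ≤ row (gad (f n))) →
      0 ≤ η → η ≤ 1 → (∀ n ∈ A, |(σ n : ℝ)| ≤ dd (f n)) →
      (η = 0 ∨ ∀ n ∈ A, |(σ n : ℝ)| = dd (f n)) →
      (∀ ε : ℕ → ℂ, (∀ n, ‖ε n‖ ≤ 1) → ∀ k b : ℕ, 1000 * b ≤ dd k →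
        gI haar ε σ η A ((vv k : ℤ) - b) + gI haar ε σ η A ((vv k : ℤ) + dd k - b) = 0) →
      1 / 4 * ∑ n ∈ A, ‖b n‖ ≤ 2 * M + ((1 / 2) ^ J + 5 * κ) * ∑ n ∈ s, ‖b n‖ := by
  obtain ⟨C₀, hC₀, hcm⟩ := class_main X J
  obtain ⟨N₁, hN₁⟩ := dd_large (4 * C₀ / κ)
  have hq0 : 0 < q := by linarith
  have hq1 : 0 < 1 - 1 / q := by
    have h1 : 1 / q < 1 := by
      rw [div_lt_one hq0]
      exact hq
    linarith
  refine ⟨max 1 (max N₁ ⌈C₀ / κ⌉₊), le_max_left _ _, ?_⟩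
  intro s b M hL hM hb A hAs f σ η hinj hnear hrow h0 h1 hσ hσ' hgI
  have hsN : ∀ m ∈ s, N₁ ≤ m ∧ C₀ ≤ κ * m ∧ 1 ≤ m := by
    intro m hm
    obtain ⟨h2, h3⟩ := hL.1 m (by exact_mod_cast hm)
    refine ⟨(le_max_left _ _).trans ((le_max_right _ _).trans h3), ?_, h2⟩
    have h4 : ⌈C₀ / κ⌉₊ ≤ m := (le_max_right _ _).trans ((le_max_right _ _).trans h3)
    have h5 : C₀ / κ ≤ m := (Nat.le_ceil _).trans (by exact_mod_cast h4)
    rw [div_le_iff₀ hκ] at h5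
    linarith
  have hdd : ∀ n, (0 : ℝ) < dd (f n) := fun n => by exact_mod_cast dd_pos (f n)
  have h8 : ∀ n ∈ A, 8 * (dd (f n) : ℝ) ≤ n := by
    intro n hn
    have h2 := (hnear n hn).1
    have h3 := dd_le (f n)
    have h4 : 8 * dd (f n) ≤ n := by omega
    exact_mod_cast h4
  have hbig : ∀ n ∈ A, 4 * (dd (f n) : ℝ) ≤ (1 - 1 / q) * n := by
    intro n hn
    have h2 := (hnear n hn).1
    rw [vv_eq] at h2
    have h3 : (16 : ℝ) ^ (row (gad (f n)) + 1) * dd (f n) ≤ 2 * n := by exact_mod_cast h2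
    have h4 : (16 : ℝ) ^ (r + 1) ≤ 16 ^ (row (gad (f n)) + 1) :=
      pow_le_pow_right₀ (by norm_num) (by have := hrow n hn; omega)
    have h5 : (16 : ℝ) ^ (r + 1) * dd (f n) ≤ 2 * n := by
      refine (mul_le_mul_of_nonneg_right h4 (hdd n).le).trans h3
    have h6 : (1 - 1 / q) * ((16 : ℝ) ^ (r + 1) * dd (f n)) ≤ (1 - 1 / q) * (2 * n) :=
      mul_le_mul_of_nonneg_left h5 hq1.le
    have h7 : 8 * (dd (f n) : ℝ) ≤ (1 - 1 / q) * 16 ^ (r + 1) * dd (f n) :=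
      mul_le_mul_of_nonneg_right hr (hdd n).le
    nlinarith
  have hlt : ∀ n ∈ A, ∀ m ∈ A.filter (· < n), f m < f n := by
    intro n hn m hm
    rw [Finset.mem_filter] at hm
    refine near_lt (hnear m hm.1) (hnear n hn) hm.2 fun h => ?_
    have := hinj (by exact_mod_cast hm.1) (by exact_mod_cast hn) h
    omega
  have hinj' : ∀ n, Set.InjOn f ((A.filter (· < n) : Finset ℕ) : Set ℕ) := by
    intro n
    refine hinj.mono ?_
    exact_mod_cast Finset.filter_subset _ _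
  have hsum : ∀ n ∈ A, ∑ k ∈ A.filter (· < n), wt σ k ≤ dd (f n) / 4 := by
    intro n hn
    have h2 := sum_wt (hinj' n) (σ := σ) (fun m hm => hnear m (Finset.mem_filter.1 hm).1)
      (fun m hm => hσ m (Finset.mem_filter.1 hm).1) (f n) (hlt n hn)
    have := hdd n
    linarith
  have hSep : ∀ C' κ' : ℝ, (∀ n ∈ A, C' * 4 ^ (A.filter (· < n)).card ≤ κ' * (dd (f n) / 4)) →
      Sep σ (fun n => (dd (f n) : ℝ) / 4) C' κ' A := by
    intro C' κ' h
    refine ⟨fun n hn => ?_, fun n hn => ?_, fun n hn => ?_, hsum, h⟩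
    · have := hdd n
      positivity
    · have h2 := h8 n hn
      have := hdd n
      show 4 * ((dd (f n) : ℝ) / 4) ≤ n
      linarith
    · have h2 := h8 n hn
      have h3 := hσ n hn
      have := hdd n
      linarith
  refine hcm κ hκ s b M hM hb (fun m hm => ⟨(hsN m hm).2.2, (hsN m hm).2.1⟩) A σ η
    (fun n => (dd (f n) : ℝ) / 4) hAs h0 h1 (hSep C₀ κ ?_) ?_ ?_ ?_
  · intro n hn
    have h2 := card_le (hinj' n) (f n) (hlt n hn)
    have h3 := hN₁ (f n) n (hsN n (hAs hn)).1 (hnear n hn)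
    have h4 : (4 : ℝ) ^ (A.filter (· < n)).card ≤ 4 ^ (f n) := pow_le_pow_right₀ (by norm_num) h2
    have h5 : C₀ * 4 ^ (A.filter (· < n)).card ≤ C₀ * 4 ^ (f n) := mul_le_mul_of_nonneg_left h4 hC₀
    have h6 : κ * (4 * C₀ / κ * 4 ^ (f n)) ≤ κ * dd (f n) := mul_le_mul_of_nonneg_left h3 hκ.le
    have h7 : κ * (4 * C₀ / κ * 4 ^ (f n)) = 4 * (C₀ * 4 ^ (f n)) := by
      field_simp
    linarith
  · intro m hm n hn hne
    have h2 := RZ.sep hq (m := m) (n := n)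
      (fun h => hL.2 m (by exact_mod_cast hm) n (by exact_mod_cast hAs hn) h)
      (fun h => hL.2 n (by exact_mod_cast hAs hn) m (by exact_mod_cast hm) h) hne
    have h3 := hbig n hn
    have h4 := hσ n hn
    have h5 := hdd n
    constructor
    · show 2 * ((dd (f n) : ℝ) / 4) ≤ _
      linarith
    · right
      show 2 * ((dd (f n) : ℝ) / 4) ≤ _
      have h6 : |(m : ℝ) - n| - |(σ n : ℝ)| ≤ |(m : ℝ) - n - σ n| := abs_sub_abs_le_abs_sub _ _
      linarith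
  · intro n hn
    rcases hσ' with h | h
    · exact Or.inl h
    · right
      rw [h n hn]
      have := hdd n
      show 2 * ((dd (f n) : ℝ) / 4) ≤ _
      linarith
  · intro ε hε j _ _
    refine sq_le hε h0 h1 ?_ ?_
    · have h2 := gI_zero (μ := haar) haar_norm le_rfl le_rfl (dec_haar 1) hε h0 h1
        (hSep 0 0 fun n _ => by simp)
      rw [mul_zero] at h2
      have h3 := norm_le_zero_iff.1 h2
      exact sub_eq_zero.1 h3
    · intro k l hlk _ _ c hc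
      refine hgI ε hε k c ?_
      have h2 := vv_le hlk
      have h3 := dd_le l
      rw [Finset.mem_insert, Finset.mem_singleton] at hc
      rcases hc with rfl | rfl <;> omega

end Forcing.CX
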