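import Pool.Agent.Lib.MP_c80ac4_an.CX.GA
import Pool.Agent.Lib.MP_c80ac4_an.CX.Ari

/-!
# Row SQ: mean square of a test polynomial

PROOF (as `Forcing.UN.sq_haar`). `P j = (1 / (2 L)) ∑ l < L, pr (pair j l)`, `L = len j`. On the
circle `‖∑ pr‖² = ∑ k, ∑ l, pr k * conj (pr l)`, and the integral of
`pr k * conj (pr l) * gp` is, for `l < k`, `∑ b ∈ {vv l, vv l + dd l}, (gI (vv k - b) +
gI (vv k + dd k - b)) = 0` by `hc`; for `k < l` it is the conjugate (`gI_neg`), and for `k = l` it is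
at most `4 ∫ ‖gp‖ = 4` in norm. So the integral is at most `4 L / (2 L)² = 1 / L`.
(`Nat.pair j` is strictly monotone: `Nat.pair_lt_pair_right`; `gad (Nat.pair j l) = j`.)
`sq_P_haar`: `A = ∅`, `gp = 1`, `gI haar ∅ m = 0` for `m ≥ 1` (`haar_zero`).
-/

namespace Forcing.CX

open Complex Metric Set MeasureTheory Filter Topology Forcing.RZ Forcing.UN

variable {ε : ℕ → ℂ} {σ : ℕ → ℤ} {η : ℝ}

/-- The integral of a product of two pairs against the product. -/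
private noncomputable def w4 (ε : ℕ → ℂ) (σ : ℕ → ℤ) (η : ℝ) (A : Finset ℕ) (k l : ℕ) : ℂ :=
  (gI haar ε σ η A ((vv k : ℤ) - (vv l : ℕ)) + gI haar ε σ η A ((vv k : ℤ) + dd k - (vv l : ℕ))) +
  (gI haar ε σ η A ((vv k : ℤ) - (vv l + dd l : ℕ)) +
    gI haar ε σ η A ((vv k : ℤ) + dd k - (vv l + dd l : ℕ)))

private theorem zz {z : ℂ} (hz : ‖z‖ = 1) (a b : ℕ) :
    z ^ ((a : ℤ) - (b : ℕ)) = z ^ a * (starRingEnd ℂ) z ^ b := by
  have hz0 : z ≠ 0 := by
    rintro rfl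
    simp at hz
  have hz1 : (starRingEnd ℂ) z = z⁻¹ := by
    rw [Complex.inv_def, Complex.normSq_eq_norm_sq, hz]; simp
  rw [hz1, zpow_sub₀ hz0, zpow_natCast, zpow_natCast, inv_pow, div_eq_mul_inv]

private theorem w4_point (A : Finset ℕ) (k l : ℕ) {z : ℂ} (hz : ‖z‖ = 1) :
    (z ^ ((vv k : ℤ) - (vv l : ℕ)) * gp ε σ η A z +
      z ^ ((vv k : ℤ) + dd k - (vv l : ℕ)) * gp ε σ η A z) +
    (z ^ ((vv k : ℤ) - (vv l + dd l : ℕ)) * gp ε σ η A z +
      z ^ ((vv k : ℤ) + dd k - (vv l + dd l : ℕ)) * gp ε σ η A z) =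
    pr k z * (starRingEnd ℂ) (pr l z) * gp ε σ η A z := by
  have h1 : ((vv k : ℤ) + dd k) = ((vv k + dd k : ℕ) : ℤ) := by push_cast; rfl
  rw [h1, zz hz, zz hz, zz hz, zz hz]
  unfold pr
  rw [map_add, map_pow, map_pow]
  ring

private theorem w4_int (hε : ∀ n, ‖ε n‖ ≤ 1) (h0 : 0 ≤ η) (h1 : η ≤ 1) (A : Finset ℕ) (k l : ℕ) :
    Integrable (fun z => pr k z * (starRingEnd ℂ) (pr l z) * gp ε σ η A z) haar := by
  have h := ((int_gp haar_norm hε h0 h1 A ((vv k : ℤ) - (vv l : ℕ)) (σ := σ)).add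
    (int_gp haar_norm hε h0 h1 A ((vv k : ℤ) + dd k - (vv l : ℕ)) (σ := σ))).add
    ((int_gp haar_norm hε h0 h1 A ((vv k : ℤ) - (vv l + dd l : ℕ)) (σ := σ)).add
    (int_gp haar_norm hε h0 h1 A ((vv k : ℤ) + dd k - (vv l + dd l : ℕ)) (σ := σ)))
  refine h.congr ?_
  filter_upwards [haar_norm] with z hz
  exact w4_point A k l hz

private theorem w4_eq (hε : ∀ n, ‖ε n‖ ≤ 1) (h0 : 0 ≤ η) (h1 : η ≤ 1) (A : Finset ℕ) (k l : ℕ) :
    ∫ z, pr k z * (starRingEnd ℂ) (pr l z) * gp ε σ η A z ∂haar = w4 ε σ η A k l := by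
  have i1 := int_gp haar_norm hε h0 h1 A ((vv k : ℤ) - (vv l : ℕ)) (σ := σ)
  have i2 := int_gp haar_norm hε h0 h1 A ((vv k : ℤ) + dd k - (vv l : ℕ)) (σ := σ)
  have i3 := int_gp haar_norm hε h0 h1 A ((vv k : ℤ) - (vv l + dd l : ℕ)) (σ := σ)
  have i4 := int_gp haar_norm hε h0 h1 A ((vv k : ℤ) + dd k - (vv l + dd l : ℕ)) (σ := σ)
  unfold w4 gI
  rw [← integral_add i1 i2, ← integral_add i3 i4, ← integral_add]
  · refine integral_congr_ae ?_
    filter_upwards [haar_norm] with z hz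
    exact (w4_point A k l hz).symm
  · exact i1.add i2
  · exact i3.add i4

private theorem gI_le_one (hε : ∀ n, ‖ε n‖ ≤ 1) (h0 : 0 ≤ η) (h1 : η ≤ 1) (A : Finset ℕ)
    (hone : gI haar ε σ η A 0 = 1) (m : ℤ) : ‖gI haar ε σ η A m‖ ≤ 1 := by
  have h2 : ∫ z, ‖z ^ m * gp ε σ η A z‖ ∂haar = ∫ z, ‖gp ε σ η A z‖ ∂haar := by
    refine integral_congr_ae ?_
    filter_upwards [haar_norm] with z hz
    simp only [norm_mul, norm_zpow, hz, one_zpow, one_mul]
  refine (norm_integral_le_integral_norm _).trans ?_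
  rw [h2, int_gp_norm haar_norm hε h0 h1, hone, norm_one]

private theorem w4_diag (hε : ∀ n, ‖ε n‖ ≤ 1) (h0 : 0 ≤ η) (h1 : η ≤ 1) (A : Finset ℕ)
    (hone : gI haar ε σ η A 0 = 1) (k : ℕ) : ‖w4 ε σ η A k k‖ ≤ 4 := by
  unfold w4
  refine (norm_add_le _ _).trans ?_
  have a1 := norm_add_le (gI haar ε σ η A ((vv k : ℤ) - (vv k : ℕ)))
    (gI haar ε σ η A ((vv k : ℤ) + dd k - (vv k : ℕ)))
  have a2 := norm_add_le (gI haar ε σ η A ((vv k : ℤ) - (vv k + dd k : ℕ)))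
    (gI haar ε σ η A ((vv k : ℤ) + dd k - (vv k + dd k : ℕ)))
  have b1 := gI_le_one hε h0 h1 A hone ((vv k : ℤ) - (vv k : ℕ))
  have b2 := gI_le_one hε h0 h1 A hone ((vv k : ℤ) + dd k - (vv k : ℕ))
  have b3 := gI_le_one hε h0 h1 A hone ((vv k : ℤ) - (vv k + dd k : ℕ))
  have b4 := gI_le_one hε h0 h1 A hone ((vv k : ℤ) + dd k - (vv k + dd k : ℕ))
  linarith

private theorem w4_off (hε : ∀ n, ‖ε n‖ ≤ 1) (h0 : 0 ≤ η) (h1 : η ≤ 1) {A : Finset ℕ} {j : ℕ}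
    (hc : ∀ k l : ℕ, l < k → gad k = j → gad l = j → ∀ b ∈ ({vv l, vv l + dd l} : Finset ℕ),
      gI haar ε σ η A ((vv k : ℤ) - b) + gI haar ε σ η A ((vv k : ℤ) + dd k - b) = 0)
    {k l : ℕ} (hk : gad k = j) (hl : gad l = j) (hne : k ≠ l) : w4 ε σ η A k l = 0 := by
  rcases lt_or_gt_of_ne hne with h | h
  · have c1 := hc l k h hl hk (vv k) (by simp)
    have c2 := hc l k h hl hk (vv k + dd k) (by simp)
    have e1 : ((vv k : ℤ) - (vv l : ℕ)) = -((vv l : ℤ) - (vv k : ℕ)) := by ring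
    have e2 : ((vv k : ℤ) + dd k - (vv l : ℕ)) = -((vv l : ℤ) - (vv k + dd k : ℕ)) := by
      push_cast; ring
    have e3 : ((vv k : ℤ) - (vv l + dd l : ℕ)) = -((vv l : ℤ) + dd l - (vv k : ℕ)) := by
      push_cast; ring
    have e4 : ((vv k : ℤ) + dd k - (vv l + dd l : ℕ)) = -((vv l : ℤ) + dd l - (vv k + dd k : ℕ)) := by
      push_cast; ring
    unfold w4
    rw [e1, e2, e3, e4, gI_neg haar_norm hε h0 h1, gI_neg haar_norm hε h0 h1,
      gI_neg haar_norm hε h0 h1, gI_neg haar_norm hε h0 h1]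
    have d1 := congrArg (starRingEnd ℂ) c1
    have d2 := congrArg (starRingEnd ℂ) c2
    rw [map_add, map_zero] at d1 d2
    linear_combination d1 + d2
  · have c1 := hc k l h hk hl (vv l) (by simp)
    have c2 := hc k l h hk hl (vv l + dd l) (by simp)
    unfold w4
    rw [c1, c2, add_zero]

private theorem gad_pair (j l : ℕ) : gad (Nat.pair j l) = j := by
  unfold gad
  rw [Nat.unpair_pair]

private theorem sum_le (hε : ∀ n, ‖ε n‖ ≤ 1) (h0 : 0 ≤ η) (h1 : η ≤ 1) {A : Finset ℕ}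
    (hone : gI haar ε σ η A 0 = 1) {j : ℕ}
    (hc : ∀ k l : ℕ, l < k → gad k = j → gad l = j → ∀ b ∈ ({vv l, vv l + dd l} : Finset ℕ),
      gI haar ε σ η A ((vv k : ℤ) - b) + gI haar ε σ η A ((vv k : ℤ) + dd k - b) = 0) (L : ℕ) :
    ∫ z, ‖∑ l ∈ Finset.range L, pr (Nat.pair j l) z‖ ^ 2 * ‖gp ε σ η A z‖ ∂haar ≤ 4 * L := by
  have e1 : ((∫ z, ‖∑ l ∈ Finset.range L, pr (Nat.pair j l) z‖ ^ 2 * ‖gp ε σ η A z‖ ∂haar : ℝ) : ℂ) =
      ∑ a ∈ Finset.range L, ∑ b ∈ Finset.range L, w4 ε σ η A (Nat.pair j a) (Nat.pair j b) := by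
    rw [← integral_complex_ofReal]
    have h2 : ∀ a ∈ Finset.range L, ∑ b ∈ Finset.range L, w4 ε σ η A (Nat.pair j a) (Nat.pair j b) =
        ∫ z, ∑ b ∈ Finset.range L, pr (Nat.pair j a) z * (starRingEnd ℂ) (pr (Nat.pair j b) z) *
          gp ε σ η A z ∂haar := by
      intro a _
      rw [integral_finsetSum _ fun b _ => w4_int hε h0 h1 A _ _]
      exact Finset.sum_congr rfl fun b _ => (w4_eq hε h0 h1 A _ _).symm
    rw [Finset.sum_congr rfl h2, ← integral_finsetSum]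
    · refine integral_congr_ae ?_
      filter_upwards [haar_norm] with z hz
      obtain ⟨t, ht0, ht⟩ := gp_nonneg hε h0 h1 A hz (σ := σ)
      have h3 : ((‖∑ l ∈ Finset.range L, pr (Nat.pair j l) z‖ ^ 2 : ℝ) : ℂ) =
          ∑ a ∈ Finset.range L, ∑ b ∈ Finset.range L,
            pr (Nat.pair j a) z * (starRingEnd ℂ) (pr (Nat.pair j b) z) := by
        rw [← Complex.normSq_eq_norm_sq, ← Complex.mul_conj, map_sum, Finset.sum_mul_sum]
      rw [Complex.ofReal_mul, h3, Finset.sum_mul]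
      refine Finset.sum_congr rfl fun a _ => ?_
      rw [Finset.sum_mul]
      refine Finset.sum_congr rfl fun b _ => ?_
      rw [ht, Complex.norm_real, Real.norm_of_nonneg ht0]
    · intro a _
      exact integrable_finsetSum _ fun b _ => w4_int hε h0 h1 A _ _
  have e2 : ∀ a ∈ Finset.range L,
      ∑ b ∈ Finset.range L, w4 ε σ η A (Nat.pair j a) (Nat.pair j b) =
        w4 ε σ η A (Nat.pair j a) (Nat.pair j a) := by
    intro a ha
    refine Finset.sum_eq_single a (fun b _ hb => ?_) (fun h => absurd ha h)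
    refine w4_off hε h0 h1 hc (gad_pair j a) (gad_pair j b) fun h => hb ?_
    have h5 := congrArg (fun n => (Nat.unpair n).2) h
    simp only [Nat.unpair_pair] at h5
    exact h5.symm
  rw [Finset.sum_congr rfl e2] at e1
  have e3 : ‖((∫ z, ‖∑ l ∈ Finset.range L, pr (Nat.pair j l) z‖ ^ 2 *
      ‖gp ε σ η A z‖ ∂haar : ℝ) : ℂ)‖ ≤ 4 * L := by
    rw [e1]
    refine (norm_sum_le _ _).trans ?_
    refine (Finset.sum_le_card_nsmul _ _ 4 fun a _ => w4_diag hε h0 h1 A hone _).trans ?_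
    rw [Finset.card_range, nsmul_eq_mul, mul_comm]
  rw [Complex.norm_real, Real.norm_eq_abs] at e3
  exact (le_abs_self _).trans e3

theorem sq_le (hε : ∀ n, ‖ε n‖ ≤ 1) (h0 : 0 ≤ η) (h1 : η ≤ 1) {A : Finset ℕ}
    (hone : gI haar ε σ η A 0 = 1) {j : ℕ}
    (hc : ∀ k l : ℕ, l < k → gad k = j → gad l = j → ∀ b ∈ ({vv l, vv l + dd l} : Finset ℕ),
      gI haar ε σ η A ((vv k : ℤ) - b) + gI haar ε σ η A ((vv k : ℤ) + dd k - b) = 0) :
    ∫ z, ‖P j z‖ ^ 2 * ‖gp ε σ η A z‖ ∂haar ≤ 1 / len j := by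
  have h := sum_le hε h0 h1 hone hc (len j)
  have hL : (0 : ℝ) < len j := by
    unfold len
    positivity
  have e1 : ∫ z, ‖P j z‖ ^ 2 * ‖gp ε σ η A z‖ ∂haar =
      (1 / (2 * (len j : ℝ))) ^ 2 *
        ∫ z, ‖∑ l ∈ Finset.range (len j), pr (Nat.pair j l) z‖ ^ 2 * ‖gp ε σ η A z‖ ∂haar := by
    rw [← integral_const_mul]
    refine integral_congr_ae (Eventually.of_forall fun z => ?_)
    have h2 : ‖(1 / ((2 * len j : ℕ) : ℂ))‖ = 1 / (2 * (len j : ℝ)) := by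
      rw [norm_div, norm_one, Complex.norm_natCast]
      push_cast
      rfl
    simp only [P, norm_mul, h2, mul_pow]
    ring
  rw [e1]
  refine (mul_le_mul_of_nonneg_left h (by positivity)).trans (le_of_eq ?_)
  field_simp
  norm_num

theorem sq_P_haar (j : ℕ) : ∫ z, ‖P j z‖ ^ 2 ∂haar ≤ 1 / len j := by
  have hg : ∀ m : ℤ, gI haar (fun _ => 0) (fun _ => 0) 0 ∅ m = ∫ z, z ^ m ∂haar := fun m => gI_empty m
  have hz : ∀ a b : ℕ, b < a → gI haar (fun _ => 0) (fun _ => 0) 0 ∅ ((a : ℤ) - b) = 0 := by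
    intro a b hab
    rw [hg, ← Nat.cast_sub hab.le]
    simp only [zpow_natCast]
    exact haar_zero (by omega)
  have h := sq_le (ε := fun _ => 0) (σ := fun _ => 0) (η := 0) (A := ∅) (j := j) (by simp) le_rfl
    zero_le_one (by rw [hg]; simp) (by
      intro k l hlk _ _ b hb
      have hv := vv_le hlk
      have hd := dd_le k
      have hd2 := dd_le l
      have hb2 : b < vv k := by
        have hd3 := dd_pos k
        rw [Finset.mem_insert, Finset.mem_singleton] at hb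
        rcases hb with rfl | rfl <;> omega
      have e : ((vv k : ℤ) + dd k - b) = (((vv k + dd k : ℕ) : ℤ) - b) := by push_cast; rfl
      rw [e, hz _ _ hb2, hz _ _ (by omega), add_zero])
  refine le_trans (le_of_eq ?_) h
  refine integral_congr_ae (Eventually.of_forall fun z => ?_)
  simp [gp]

end Forcing.CX
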